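import Mathlib

/-!
# A skew Bollobás-type bound for the Hamming distance

If `x_1, …, x_m` and `y_1, …, y_m` are finite sets with `|x_l ∆ y_l| ≥ s` for all `l` and
`|x_j ∆ y_l| < s` for all `j < l`, then `m ≤ 2^s`.
-/

open MvPolynomial

namespace Q181.Cube

noncomputable section

variable {ι : Type*} [DecidableEq ι]

section forms

variable {s : ℕ} {K : Type*} [CommRing K] (c : ι → Fin s → K)

/-- The linear form attached to a coordinate. -/
def lform (k : ι) : MvPolynomial (Fin s) K := ∑ j, C (c k j) * X j

/-- The product `∏_{k ∈ x} (1 + ℓ_k)`. -/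
def Phi (x : Finset ι) : MvPolynomial (Fin s) K := ∏ k ∈ x, (1 + lform c k)

/-- The exponent vector of `z_1 ⋯ z_s`. -/
def ones (s : ℕ) : Fin s →₀ ℕ := Finsupp.equivFunOnFinite.symm fun _ => 1

@[simp] lemma ones_apply (i : Fin s) : ones s i = 1 := rfl

lemma ones_degree : (ones s).degree = s := by
  rw [Finsupp.degree_eq_sum]; simp

/-- The coefficient of `z_1 ⋯ z_s`. -/
def top (P : MvPolynomial (Fin s) K) : K := coeff (ones s) P

lemma top_mul_sq (P : MvPolynomial (Fin s) K) (a : K) (j : Fin s) :
    top (P * (C a * X j ^ 2)) = 0 := by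
  rw [top, C_mul_X_pow_eq_monomial, coeff_mul_monomial', if_neg]
  intro h
  have := h j
  rw [Finsupp.single_eq_same, ones_apply] at this
  omega

lemma one_add_lform_sq [CharP K 2] (k : ι) :
    (1 + lform c k) ^ 2 = 1 + ∑ j, C (c k j ^ 2) * X j ^ 2 := by
  haveI : CharP (MvPolynomial (Fin s) K) 2 := inferInstance
  rw [add_pow_char, one_pow, lform, sum_pow_char 2]
  congr 1
  refine Finset.sum_congr rfl fun j _ => ?_
  rw [mul_pow, ← C_pow]

lemma top_mul_prod_sq [CharP K 2] (P : MvPolynomial (Fin s) K) (S : Finset ι) :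
    top (P * ∏ k ∈ S, (1 + lform c k) ^ 2) = top P := by
  induction S using Finset.induction_on generalizing P with
  | empty => simp
  | insert k S hk ih =>
    rw [Finset.prod_insert hk, ← mul_assoc, ih, one_add_lform_sq, mul_add, mul_one,
      Finset.mul_sum, top, coeff_add, coeff_sum, Finset.sum_eq_zero, add_zero]
    · rfl
    · intro j _
      exact top_mul_sq P _ j

lemma top_Phi_mul_Phi [CharP K 2] (x y : Finset ι) :
    top (Phi c x * Phi c y) = top (Phi c (symmDiff x y)) := by
  have h1 : Phi c x * Phi c y = Phi c (symmDiff x y) * ∏ k ∈ x ∩ y, (1 + lform c k) ^ 2 := by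
    have hx : Phi c x = Phi c (x \ y) * ∏ k ∈ x ∩ y, (1 + lform c k) := by
      rw [Phi, Phi, ← Finset.prod_union (Finset.disjoint_sdiff_inter x y),
        Finset.sdiff_union_inter]
    have hy : Phi c y = Phi c (y \ x) * ∏ k ∈ x ∩ y, (1 + lform c k) := by
      rw [Phi, Phi, Finset.inter_comm, ← Finset.prod_union (Finset.disjoint_sdiff_inter y x),
        Finset.sdiff_union_inter]
    have hs : Phi c (symmDiff x y) = Phi c (x \ y) * Phi c (y \ x) := by
      rw [Phi, Phi, Phi, ← Finset.prod_union disjoint_sdiff_sdiff]
      rfl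
    rw [hx, hy, hs, Finset.prod_pow]
    ring
  rw [h1, top_mul_prod_sq]

lemma top_Phi_of_card_lt (D : Finset ι) (h : D.card < s) : top (Phi c D) = 0 := by
  refine coeff_eq_zero_of_totalDegree_lt ?_
  have h1 : (∑ i ∈ (ones s).support, ones s i) = s := by
    have : (ones s).support = Finset.univ := by
      ext i; simp
    rw [this]; simp
  rw [h1]
  refine lt_of_le_of_lt (totalDegree_finsetProd _ _) ?_
  refine lt_of_le_of_lt (Finset.sum_le_card_nsmul _ _ 1 fun k _ => ?_) (by simpa using h)
  refine (totalDegree_add _ _).trans ?_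
  rw [totalDegree_one, lform]
  refine max_le (Nat.zero_le _) ?_
  refine (totalDegree_finsetSum _ _).trans (Finset.sup_le fun j _ => ?_)
  refine (totalDegree_mul _ _).trans ?_
  rw [totalDegree_C, zero_add]
  by_cases hn : Nontrivial K
  · rw [totalDegree_X]
  · rw [not_nontrivial_iff_subsingleton] at hn
    have : (X j : MvPolynomial (Fin s) K) = 0 := Subsingleton.elim _ _
    rw [this, totalDegree_zero]; norm_num

/-- A polynomial without squarefree coefficients is orthogonal to everything. -/
lemma top_mul_eq_zero (P Q : MvPolynomial (Fin s) K)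
    (hP : ∀ a : Fin s →₀ ℕ, a ≤ ones s → coeff a P = 0) : top (P * Q) = 0 := by
  rw [top, coeff_mul]
  refine Finset.sum_eq_zero fun ab hab => ?_
  rw [Finset.HasAntidiagonal.mem_antidiagonal] at hab
  rw [hP ab.1 (by rw [← hab]; exact le_self_add), zero_mul]

lemma top_map {L : Type*} [CommRing L] (f : K →+* L) (P : MvPolynomial (Fin s) K) :
    top (map f P) = f (top P) := coeff_map _ _ _

lemma map_Phi {L : Type*} [CommRing L] (f : K →+* L) (D : Finset ι) :
    map f (Phi c D) = Phi (fun k j => f (c k j)) D := by
  rw [Phi, map_prod, Phi]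
  refine Finset.prod_congr rfl fun k _ => ?_
  rw [map_add, map_one, lform, map_sum, lform]
  congr 1
  refine Finset.sum_congr rfl fun j _ => ?_
  rw [map_mul, map_C, map_X]

/-- The coefficient of `z_1 ⋯ z_s` in `∏ (1 + z_j)`. -/
lemma top_prod_one_add_X : top (∏ j : Fin s, (1 + X j : MvPolynomial (Fin s) K)) = 1 := by
  classical
  rw [Finset.prod_one_add, top, coeff_sum, Finset.sum_eq_single Finset.univ]
  · have : (∏ j : Fin s, X j : MvPolynomial (Fin s) K) = monomial (ones s) 1 := by
      rw [monomial_eq, Finsupp.prod_fintype _ _ (by simp)]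
      simp
    rw [this, coeff_monomial, if_pos rfl]
  · intro A _ hA
    have h1 : (∏ j ∈ A, X j : MvPolynomial (Fin s) K) = monomial (∑ j ∈ A, Finsupp.single j 1) 1 := by
      rw [monomial_sum_one]; rfl
    rw [h1, coeff_monomial, if_neg]
    intro h
    apply hA
    rw [Finset.eq_univ_iff_forall]
    intro i
    by_contra hi
    have := DFunLike.congr_fun h i
    rw [Finsupp.finsetSum_apply, ones_apply, Finset.sum_eq_zero] at this
    · exact absurd this (by decide)
    · intro j hj
      exact Finsupp.single_eq_of_ne (fun h => hi (h ▸ hj))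
  · intro h; exact absurd (Finset.mem_powerset_self _) h

end forms

section generic

variable (ι) (s : ℕ)

/-- The ring of generic coefficients. -/
abbrev GenRing : Type _ := MvPolynomial (ι × Fin s) (ZMod 2)

variable {ι} {s}

lemma top_generic_ne_zero (D : Finset ι) (h : s ≤ D.card) :
    top (Phi (fun (k : ι) (j : Fin s) => (X (k, j) : GenRing ι s)) D) ≠ 0 := by
  intro h0
  obtain ⟨T, hTD, hT⟩ := Finset.exists_subset_card_eq h
  let e : Fin s ≃ T := (Fintype.equivFinOfCardEq (by simpa using hT)).symm
  let ev : GenRing ι s →+* ZMod 2 := eval₂Hom (RingHom.id (ZMod 2)) fun p =>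
    if p.1 = (e p.2 : ι) then 1 else 0
  have h1 := top_map ev (Phi (fun (k : ι) (j : Fin s) => (X (k, j) : GenRing ι s)) D)
  rw [h0, map_zero, map_Phi] at h1
  have h2 : ∀ (k : ι) (j : Fin s), ev (X (k, j)) = if k = (e j : ι) then 1 else 0 := by
    intro k j
    simp [ev]
  simp only [h2] at h1
  have h3 : Phi (fun (k : ι) (j : Fin s) => (if k = (e j : ι) then (1 : ZMod 2) else 0)) D =
      ∏ j : Fin s, (1 + X j) := by
    rw [Phi, ← Finset.prod_sdiff hTD, Finset.prod_eq_one, one_mul]
    · rw [← Finset.prod_coe_sort T, ← Equiv.prod_comp e]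
      refine Finset.prod_congr rfl fun j _ => ?_
      congr 1
      rw [lform, Finset.sum_eq_single j]
      · simp
      · intro i _ hi
        rw [if_neg, map_zero, zero_mul]
        intro h
        exact hi (e.injective (Subtype.ext h)).symm
      · intro h; exact absurd (Finset.mem_univ _) h
    · intro k hk
      rw [Finset.mem_sdiff] at hk
      rw [lform, Finset.sum_eq_zero, add_zero]
      intro j _
      rw [if_neg, map_zero, zero_mul]
      intro h
      exact hk.2 (h ▸ (e j).2)
  rw [h3, top_prod_one_add_X] at h1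
  exact one_ne_zero h1

end generic

/-- The skew Bollobás-type bound for the Hamming distance. -/
theorem length_le {s : ℕ} (Z : List (Finset ι × Finset ι))
    (h1 : ∀ p ∈ Z, s ≤ (symmDiff p.1 p.2).card)
    (h2 : Z.Pairwise fun p q => (symmDiff p.1 q.2).card < s) : Z.length ≤ 2 ^ s := by
  classical
  let K := FractionRing (GenRing ι s)
  let c : ι → Fin s → K := fun k j => algebraMap (GenRing ι s) K (X (k, j))
  haveI : CharP K 2 := by
    have : CharP (GenRing ι s) 2 := inferInstance
    exact charP_of_injective_algebraMap (IsFractionRing.injective (GenRing ι s) K) 2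
  have hne : ∀ D : Finset ι, s ≤ D.card → top (Phi c D) ≠ 0 := by
    intro D hD h0
    have h3 := top_map (algebraMap (GenRing ι s) K)
      (Phi (fun (k : ι) (j : Fin s) => (X (k, j) : GenRing ι s)) D)
    rw [map_Phi] at h3
    have h4 := top_generic_ne_zero D hD
    apply h4
    apply IsFractionRing.injective (GenRing ι s) K
    rw [map_zero, ← h3]
    exact h0
  let v : Fin Z.length → (Finset (Fin s) → K) := fun l A =>
    coeff (∑ j ∈ A, Finsupp.single j 1) (Phi c (Z.get l).1)
  have hlin : LinearIndependent K v := by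
    rw [Fintype.linearIndependent_iff]
    intro g hg
    by_contra hcon
    push Not at hcon
    -- the largest index with a nonzero coefficient
    have hfin : (Finset.univ.filter fun l => g l ≠ 0).Nonempty := by
      obtain ⟨l, hl⟩ := hcon
      exact ⟨l, Finset.mem_filter.2 ⟨Finset.mem_univ _, hl⟩⟩
    set l := (Finset.univ.filter fun l => g l ≠ 0).max' hfin with hl
    have hl0 : g l ≠ 0 := (Finset.mem_filter.1 (Finset.max'_mem _ hfin)).2
    have hmax : ∀ j, l < j → g j = 0 := by
      intro j hj
      by_contra h
      have hj' : j ∈ Finset.univ.filter (fun l => g l ≠ 0) :=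
        Finset.mem_filter.2 ⟨Finset.mem_univ _, h⟩
      have := Finset.le_max' _ j hj'
      exact absurd (lt_of_lt_of_le hj this) (lt_irrefl _)
    -- the polynomial
    let P : MvPolynomial (Fin s) K := ∑ j, C (g j) * Phi c (Z.get j).1
    have hP : ∀ a : Fin s →₀ ℕ, a ≤ ones s → coeff a P = 0 := by
      intro a ha
      have ha' : a = ∑ j ∈ Finset.univ.filter (fun j => a j = 1), Finsupp.single j 1 := by
        ext i
        rw [Finsupp.finsetSum_apply]
        simp only [Finsupp.single_apply, Finset.sum_ite_eq', Finset.mem_filter, Finset.mem_univ,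
          true_and]
        have := ha i
        rw [ones_apply] at this
        split_ifs with h
        · exact h
        · omega
      have h3 := congrFun hg (Finset.univ.filter fun j => a j = 1)
      rw [Finset.sum_apply] at h3
      simp only [P, coeff_sum, coeff_C_mul]
      rw [ha']
      simpa [v] using h3
    have h4 := top_mul_eq_zero P (Phi c (Z.get l).2) hP
    have h5 : top (P * Phi c (Z.get l).2) = g l * top (Phi c (symmDiff (Z.get l).1 (Z.get l).2)) := by
      simp only [P, Finset.sum_mul, top, coeff_sum]
      rw [Finset.sum_eq_single l]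
      · rw [mul_assoc, coeff_C_mul]
        congr 1
        exact top_Phi_mul_Phi c _ _
      · intro j _ hj
        rw [mul_assoc, coeff_C_mul]
        rcases lt_or_gt_of_ne hj with h | h
        · have h6 : (symmDiff (Z.get j).1 (Z.get l).2).card < s :=
            List.pairwise_iff_getElem.1 h2 j l j.2 l.2 h
          have h7 : coeff (ones s) (Phi c (Z.get j).1 * Phi c (Z.get l).2) = 0 := by
            have := top_Phi_mul_Phi c (Z.get j).1 (Z.get l).2
            rw [top_Phi_of_card_lt c _ h6] at this
            exact this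
          rw [h7, mul_zero]
        · rw [hmax j h, zero_mul]
      · intro h; exact absurd (Finset.mem_univ _) h
    rw [h5] at h4
    exact (mul_ne_zero hl0 (hne _ (h1 _ (List.get_mem _ _)))) h4
  have h6 := hlin.fintype_card_le_finrank
  rw [Fintype.card_fin, Module.finrank_fintype_fun_eq_card, Fintype.card_finset,
    Fintype.card_fin] at h6
  exact h6

/-- The bound for chains of vertices and non-neighbours: `w_1, w_2, …` pairwise at distance at most
`r`, `u_l` at distance at most `r` from the earlier `w_j` but further than `r` from `w_l`. -/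
theorem chain_length_le {r : ℕ} (Z : List (Finset ι × Finset ι))
    (h1 : ∀ p ∈ Z, r < (symmDiff p.1 p.2).card)
    (h2 : Z.Pairwise fun p q => (symmDiff p.1 q.1).card ≤ r ∧ (symmDiff p.1 q.2).card ≤ r) :
    Z.length ≤ 2 ^ r := by
  have hZ := length_le (s := r + 1) (Z ++ Z.reverse.map Prod.swap) ?_ ?_
  · rw [List.length_append, List.length_map, List.length_reverse, pow_succ] at hZ
    omega
  · intro p hp
    rw [List.mem_append, List.mem_map] at hp
    rcases hp with hp | ⟨q, hq, rfl⟩
    · exact h1 p hp
    · rw [List.mem_reverse] at hq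
      rw [Prod.fst_swap, Prod.snd_swap, symmDiff_comm]
      exact h1 q hq
  · rw [List.pairwise_append]
    refine ⟨h2.imp fun h => Nat.lt_succ_of_le h.2, ?_, ?_⟩
    · rw [List.pairwise_map, List.pairwise_reverse]
      refine h2.imp fun {a b} h => ?_
      rw [Prod.fst_swap, Prod.snd_swap, symmDiff_comm]
      exact Nat.lt_succ_of_le h.2
    · intro p hp q hq
      rw [List.mem_map] at hq
      obtain ⟨q, hq, rfl⟩ := hq
      rw [List.mem_reverse] at hq
      rw [Prod.snd_swap]
      have hsym : ∀ p ∈ Z, ∀ q ∈ Z, (symmDiff p.1 q.1).card ≤ r := by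
        intro p hp q hq
        obtain ⟨i, hi, rfl⟩ := List.mem_iff_getElem.1 hp
        obtain ⟨j, hj, rfl⟩ := List.mem_iff_getElem.1 hq
        rcases lt_trichotomy i j with h | h | h
        · exact (List.pairwise_iff_getElem.1 h2 i j hi hj h).1
        · subst h; simp
        · rw [symmDiff_comm]
          exact (List.pairwise_iff_getElem.1 h2 j i hj hi h).1
      exact Nat.lt_succ_of_le (hsym p hp q hq)

end

end Q181.Cube
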