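import Mathlib

/-! Collapses of finite simplicial complexes, and a criterion for a clique complex to collapse
to a low-dimensional subcomplex. -/

set_option autoImplicit false

namespace Q181.Cube

open Relation

variable {V : Type*} [DecidableEq V]

/-- A simplicial complex, given by the set of its simplices: nonempty finite sets of vertices,
closed under passing to nonempty subsets. -/
def IsComplex (K : Set (Finset V)) : Prop :=
  (∀ σ ∈ K, σ.Nonempty) ∧ ∀ σ ∈ K, ∀ ρ : Finset V, ρ ⊆ σ → ρ.Nonempty → ρ ∈ K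

/-- An elementary collapse: removal of two simplices `σ ⊂ τ` with `dim τ = dim σ + 1`, where `τ`
is the only simplex properly containing `σ`. -/
def ElemCollapse (K L : Set (Finset V)) : Prop :=
  ∃ σ ∈ K, ∃ τ ∈ K, σ ⊂ τ ∧ τ.card = σ.card + 1 ∧ (∀ ρ ∈ K, σ ⊂ ρ → ρ = τ) ∧ L = K \ {σ, τ}

/-- `K` collapses to `L`: a finite sequence of elementary collapses leads from `K` to `L`. -/
def Collapses (K L : Set (Finset V)) : Prop := ReflTransGen ElemCollapse K L

/-- The `k`-skeleton: the simplices of dimension at most `k` (at most `k + 1` vertices). -/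
def skeleton (k : ℕ) (K : Set (Finset V)) : Set (Finset V) := {σ ∈ K | σ.card ≤ k + 1}

/-- The clique complex of a graph. -/
def cliqueComplex (G : SimpleGraph V) : Set (Finset V) :=
  {σ | σ.Nonempty ∧ G.IsClique (σ : Set V)}

theorem ElemCollapse.isComplex {K L : Set (Finset V)} (hK : IsComplex K) (h : ElemCollapse K L) :
    IsComplex L := by
  obtain ⟨σ, hσ, τ, hτ, hst, hcard, hfree, rfl⟩ := h
  refine ⟨fun ρ hρ => hK.1 ρ hρ.1, ?_⟩
  intro ρ hρ ρ' hρ' hne
  refine ⟨hK.2 ρ hρ.1 ρ' hρ' hne, ?_⟩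
  intro h
  have h2 := hρ.2
  rw [Set.mem_insert_iff, Set.mem_singleton_iff] at h h2
  push Not at h2
  have hsub : σ ⊆ ρ := by
    rcases h with rfl | rfl
    · exact hρ'
    · exact hst.1.trans hρ'
  have hss : σ ⊂ ρ := hsub.ssubset_of_ne (Ne.symm h2.1)
  exact h2.2 (hfree ρ hρ.1 hss)

theorem Collapses.isComplex {K L : Set (Finset V)} (hK : IsComplex K) (h : Collapses K L) :
    IsComplex L := by
  induction h with
  | refl => exact hK
  | tail _ hbc ih => exact hbc.isComplex ih

theorem Collapses.subset {K L : Set (Finset V)} (h : Collapses K L) : L ⊆ K := by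
  induction h with
  | refl => exact subset_rfl
  | tail _ hbc ih =>
    obtain ⟨σ, hσ, τ, hτ, hst, hcard, hfree, rfl⟩ := hbc
    exact Set.diff_subset.trans ih

/-- One reduction step in a family of finite sets (the empty set is allowed). -/
def Step (d : ℕ) (K L : Set (Finset V)) : Prop :=
  ∃ (ρ : Finset V) (v : V), v ∉ ρ ∧ d ≤ ρ.card ∧ ρ ∈ K ∧ insert v ρ ∈ K ∧
    (∀ ρ' ∈ K, ρ ⊂ ρ' → ρ' = insert v ρ) ∧ L = K \ {ρ, insert v ρ}

theorem Step.subset {d : ℕ} {K L : Set (Finset V)} (h : Step d K L) : L ⊆ K := by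
  obtain ⟨ρ, v, -, -, -, -, -, rfl⟩ := h
  exact Set.diff_subset

theorem steps_subset {d : ℕ} {K L : Set (Finset V)} (h : ReflTransGen (Step d) K L) : L ⊆ K := by
  induction h with
  | refl => exact subset_rfl
  | tail _ hbc ih => exact hbc.subset.trans ih

/-- The sets containing `w` whose remainder is in `K`. -/
def lft (w : V) (K : Set (Finset V)) : Set (Finset V) := {σ | w ∈ σ ∧ σ.erase w ∈ K}

theorem Step.lift {d : ℕ} {K L : Set (Finset V)} (w : V) (A : Set (Finset V))
    (hA : ∀ σ ∈ A, w ∉ σ) (hK : ∀ σ ∈ K, w ∉ σ) (h : Step d K L) :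
    Step (d + 1) (A ∪ lft w K) (A ∪ lft w L) := by
  obtain ⟨ρ, v, hv, hd, hρ, hvρ, hfree, rfl⟩ := h
  have hwρ := hK _ hρ
  have hwv := hK _ hvρ
  have hne : v ≠ w := fun h => hwv (h ▸ Finset.mem_insert_self _ _)
  have hcomm : insert v (insert w ρ) = insert w (insert v ρ) := Finset.insert_comm _ _ _
  refine ⟨insert w ρ, v, ?_, ?_, ?_, ?_, ?_, ?_⟩
  · rw [Finset.mem_insert]
    push Not
    exact ⟨hne, hv⟩
  · rw [Finset.card_insert_of_notMem hwρ]
    omega
  · refine Or.inr ⟨Finset.mem_insert_self _ _, ?_⟩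
    rwa [Finset.erase_insert hwρ]
  · rw [hcomm]
    refine Or.inr ⟨Finset.mem_insert_self _ _, ?_⟩
    rwa [Finset.erase_insert hwv]
  · intro σ hσ hss
    rw [hcomm]
    have hwσ : w ∈ σ := hss.1 (Finset.mem_insert_self _ _)
    rcases hσ with hσ | hσ
    · exact absurd hwσ (hA σ hσ)
    · have h1 : ρ ⊂ σ.erase w := by
        refine Finset.ssubset_iff_subset_ne.2 ⟨?_, ?_⟩
        · intro x hx
          refine Finset.mem_erase.2 ⟨fun h => hwρ (h ▸ hx), hss.1 (Finset.mem_insert_of_mem hx)⟩
        · intro h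
          apply hss.ne
          rw [h, Finset.insert_erase hwσ]
      have h2 := hfree _ hσ.2 h1
      rw [← h2, Finset.insert_erase hwσ]
  · ext σ
    rw [hcomm]
    simp only [Set.mem_union, Set.mem_diff, Set.mem_insert_iff, Set.mem_singleton_iff, lft,
      Set.mem_setOf_eq]
    constructor
    · rintro (h | ⟨h1, h2, h3⟩)
      · refine ⟨Or.inl h, ?_⟩
        rintro (h' | h')
        · exact hA _ h (h' ▸ Finset.mem_insert_self _ _)
        · exact hA _ h (h' ▸ Finset.mem_insert_self _ _)
      · refine ⟨Or.inr ⟨h1, h2⟩, ?_⟩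
        rintro (h' | h')
        · apply h3
          left
          rw [h', Finset.erase_insert hwρ]
        · apply h3
          right
          rw [h', Finset.erase_insert hwv]
    · rintro ⟨h | ⟨h1, h2⟩, h3⟩
      · exact Or.inl h
      · refine Or.inr ⟨h1, h2, ?_⟩
        rintro (h' | h')
        · apply h3
          left
          rw [← h', Finset.insert_erase h1]
        · apply h3
          right
          rw [← h', Finset.insert_erase h1]

theorem steps_lift {d : ℕ} {K L : Set (Finset V)} (w : V) (A : Set (Finset V))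
    (hA : ∀ σ ∈ A, w ∉ σ) (hK : ∀ σ ∈ K, w ∉ σ) (h : ReflTransGen (Step d) K L) :
    ReflTransGen (Step (d + 1)) (A ∪ lft w K) (A ∪ lft w L) := by
  induction h with
  | refl => exact ReflTransGen.refl
  | tail hab hbc ih =>
    exact ih.tail (hbc.lift w A hA fun σ hσ => hK σ (steps_subset hab hσ))

theorem Step.union {d : ℕ} {K L : Set (Finset V)} (B : Set (Finset V))
    (hB : ∀ σ ∈ B, σ.card ≤ d) (hKB : ∀ σ ∈ B, σ ∉ K) (h : Step d K L) :
    Step d (K ∪ B) (L ∪ B) := by
  obtain ⟨ρ, v, hv, hd, hρ, hvρ, hfree, rfl⟩ := h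
  refine ⟨ρ, v, hv, hd, Or.inl hρ, Or.inl hvρ, ?_, ?_⟩
  · rintro σ (hσ | hσ) hss
    · exact hfree σ hσ hss
    · have h1 := Finset.card_lt_card hss
      have h2 := hB σ hσ
      omega
  · ext σ
    simp only [Set.mem_union, Set.mem_diff, Set.mem_insert_iff, Set.mem_singleton_iff]
    constructor
    · rintro (⟨h1, h2⟩ | h)
      · exact ⟨Or.inl h1, h2⟩
      · refine ⟨Or.inr h, ?_⟩
        rintro (rfl | rfl)
        · exact hKB _ h hρ
        · exact hKB _ h hvρ
    · rintro ⟨h1 | h1, h2⟩
      · exact Or.inl ⟨h1, h2⟩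
      · exact Or.inr h1

theorem steps_union {d : ℕ} {K L : Set (Finset V)} (B : Set (Finset V))
    (hB : ∀ σ ∈ B, σ.card ≤ d) (hKB : ∀ σ ∈ B, σ ∉ K) (h : ReflTransGen (Step d) K L) :
    ReflTransGen (Step d) (K ∪ B) (L ∪ B) := by
  induction h with
  | refl => exact ReflTransGen.refl
  | tail hab hbc ih =>
    exact ih.tail (hbc.union B hB fun σ hσ hσ' => hKB σ hσ (steps_subset hab hσ'))

/-- A cone with apex `v` reduces to sets of small size. -/
theorem steps_cone {d : ℕ} (v : V) : ∀ (n : ℕ) (T : Finset (Finset V)), T.card = n →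
    (∀ ρ ∈ T, v ∉ ρ) → ∃ T' : Finset (Finset V), (∀ ρ ∈ T', ρ.card < d) ∧
      ReflTransGen (Step d) {σ | σ.erase v ∈ T} {σ | σ.erase v ∈ T'} := by
  intro n
  induction n with
  | zero =>
    intro T hn _
    rw [Finset.card_eq_zero] at hn
    exact ⟨T, by simp [hn], ReflTransGen.refl⟩
  | succ n ih =>
    intro T hn hT
    by_cases hall : ∀ ρ ∈ T, ρ.card < d
    · exact ⟨T, hall, ReflTransGen.refl⟩
    push Not at hall
    obtain ⟨ρ₀, hρ₀, hd₀⟩ := hall
    obtain ⟨ρ, hρ, hmax⟩ := T.exists_max_image Finset.card ⟨ρ₀, hρ₀⟩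
    have hd : d ≤ ρ.card := hd₀.trans (hmax _ hρ₀)
    have hvρ := hT _ hρ
    obtain ⟨T', hT', hred⟩ := ih (T.erase ρ) (by rw [Finset.card_erase_of_mem hρ]; omega)
      fun ρ' hρ' => hT _ (Finset.mem_of_mem_erase hρ')
    refine ⟨T', hT', ReflTransGen.head ?_ hred⟩
    refine ⟨ρ, v, hvρ, hd, ?_, ?_, ?_, ?_⟩
    · rw [Set.mem_setOf_eq, Finset.erase_eq_of_notMem hvρ]; exact hρ
    · rw [Set.mem_setOf_eq, Finset.erase_insert hvρ]; exact hρ
    · intro σ hσ hss
      have h1 : ρ ⊆ σ.erase v := fun x hx =>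
        Finset.mem_erase.2 ⟨fun h => hvρ (h ▸ hx), hss.1 hx⟩
      have h2 := Finset.eq_of_subset_of_card_le h1 (hmax _ hσ)
      by_cases hvσ : v ∈ σ
      · rw [h2, Finset.insert_erase hvσ]
      · rw [Finset.erase_eq_of_notMem hvσ] at h2
        exact absurd h2 hss.ne
    · ext σ
      simp only [Finset.mem_erase, Set.mem_setOf_eq, Set.mem_diff, Set.mem_insert_iff,
        Set.mem_singleton_iff]
      constructor
      · rintro ⟨h1, h2⟩
        refine ⟨h2, ?_⟩
        rintro (rfl | rfl)
        · exact h1 (Finset.erase_eq_of_notMem hvρ)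
        · exact h1 (Finset.erase_insert hvρ)
      · rintro ⟨h1, h2⟩
        refine ⟨?_, h1⟩
        intro h
        apply h2
        by_cases hvσ : v ∈ σ
        · right
          rw [← h, Finset.insert_erase hvσ]
        · left
          rw [← h, Finset.erase_eq_of_notMem hvσ]

/-- The subsets of `W` all of whose pairs are related. -/
def fam (N : V → V → Prop) (W : Finset V) : Set (Finset V) :=
  {σ | σ ⊆ W ∧ ∀ x ∈ σ, ∀ y ∈ σ, N x y}

theorem fam_eq (N : V → V → Prop) [DecidableRel N] (hr : ∀ x, N x x)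
    (hs : ∀ x y, N x y → N y x) (W : Finset V) (w : V) (hw : w ∈ W) :
    fam N W = fam N (W.erase w) ∪ lft w (fam N ((W.erase w).filter (N w))) := by
  ext σ
  simp only [fam, lft, Set.mem_union, Set.mem_setOf_eq]
  constructor
  · rintro ⟨h1, h2⟩
    by_cases hwσ : w ∈ σ
    · right
      refine ⟨hwσ, ?_, ?_⟩
      · intro x hx
        rw [Finset.mem_erase] at hx
        exact Finset.mem_filter.2 ⟨Finset.mem_erase.2 ⟨hx.1, h1 hx.2⟩, h2 w hwσ x hx.2⟩
      · intro x hx y hy
        exact h2 x (Finset.mem_of_mem_erase hx) y (Finset.mem_of_mem_erase hy)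
    · left
      exact ⟨fun x hx => Finset.mem_erase.2 ⟨fun h => hwσ (h ▸ hx), h1 hx⟩, h2⟩
  · rintro (⟨h1, h2⟩ | ⟨h1, h2, h3⟩)
    · exact ⟨h1.trans (Finset.erase_subset _ _), h2⟩
    · have h4 : ∀ x ∈ σ, x ≠ w → x ∈ W ∧ N w x := by
        intro x hx hxw
        have := Finset.mem_filter.1 (h2 (Finset.mem_erase.2 ⟨hxw, hx⟩))
        exact ⟨Finset.mem_of_mem_erase this.1, this.2⟩
      refine ⟨?_, ?_⟩
      · intro x hx
        by_cases hxw : x = w
        · rw [hxw]; exact hw
        · exact (h4 x hx hxw).1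
      · intro x hx y hy
        by_cases hxw : x = w
        · rw [hxw]
          by_cases hyw : y = w
          · rw [hyw]; exact hr w
          · exact (h4 y hy hyw).2
        · by_cases hyw : y = w
          · rw [hyw]; exact hs _ _ (h4 x hx hxw).2
          · exact h3 x (Finset.mem_erase.2 ⟨hxw, hx⟩) y (Finset.mem_erase.2 ⟨hyw, hy⟩)

/-- If every chain of vertices and non-neighbours in `W` has length at most `d`, the family of
cliques in `W` reduces to sets of size at most `d`. -/
theorem reduce (N : V → V → Prop) [DecidableRel N] (hr : ∀ x, N x x)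
    (hs : ∀ x y, N x y → N y x) : ∀ (n : ℕ) (W : Finset V), W.card ≤ n → ∀ d : ℕ,
    (∀ Z : List (V × V), (∀ p ∈ Z, p.1 ∈ W ∧ p.2 ∈ W ∧ ¬ N p.1 p.2) →
      Z.Pairwise (fun p q => N p.1 q.1 ∧ N p.1 q.2) → Z.length ≤ d) →
    ∃ K, ReflTransGen (Step d) (fam N W) K ∧ ∀ σ ∈ K, σ.card ≤ d := by
  intro n
  induction n with
  | zero =>
    intro W hW d _
    refine ⟨fam N W, ReflTransGen.refl, ?_⟩
    intro σ hσ
    have h1 := Finset.card_le_card hσ.1
    omega
  | succ n ih =>
    intro W hW d hd
    by_cases hcl : ∀ x ∈ W, ∀ y ∈ W, N x y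
    · rcases W.eq_empty_or_nonempty with rfl | ⟨v, hv⟩
      · refine ⟨fam N ∅, ReflTransGen.refl, ?_⟩
        intro σ hσ
        have h1 := Finset.card_le_card hσ.1
        rw [Finset.card_empty] at h1
        omega
      · obtain ⟨T', hT', hred⟩ := steps_cone (d := d) v _ (W.erase v).powerset rfl (by
          intro ρ hρ hvρ
          exact Finset.notMem_erase v W (Finset.mem_powerset.1 hρ hvρ))
        have hfam : fam N W = {σ | σ.erase v ∈ (W.erase v).powerset} := by
          ext σ
          simp only [fam, Set.mem_setOf_eq, Finset.mem_powerset]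
          constructor
          · rintro ⟨h1, -⟩
            exact Finset.erase_subset_erase v h1
          · intro h
            have h1 : σ ⊆ W := by
              intro x hx
              by_cases hxv : x = v
              · rw [hxv]; exact hv
              · exact Finset.mem_of_mem_erase (h (Finset.mem_erase.2 ⟨hxv, hx⟩))
            exact ⟨h1, fun x hx y hy => hcl x (h1 hx) y (h1 hy)⟩
        refine ⟨_, hfam ▸ hred, ?_⟩
        intro σ hσ
        have h1 := hT' _ hσ
        have h2 := Finset.pred_card_le_card_erase (s := σ) (a := v)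
        omega
    · push Not at hcl
      obtain ⟨w, hw, u, hu, hwu⟩ := hcl
      have h1 := hd [(w, u)] (by
        intro p hp
        rw [List.mem_singleton] at hp
        subst hp
        exact ⟨hw, hu, hwu⟩) (List.pairwise_singleton _ _)
      rw [List.length_singleton] at h1
      obtain ⟨d', rfl⟩ : ∃ d', d = d' + 1 := ⟨d - 1, by omega⟩
      have hcard : (W.erase w).card < W.card := Finset.card_erase_lt_of_mem hw
      set L := (W.erase w).filter (N w) with hL
      have hLc : L.card ≤ (W.erase w).card := Finset.card_filter_le _ _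
      obtain ⟨K1, hK1, hK1c⟩ := ih L (by omega) d' (by
        intro Z hZ1 hZ2
        have h2 := hd ((w, u) :: Z) (by
          intro p hp
          rw [List.mem_cons] at hp
          rcases hp with rfl | hp
          · exact ⟨hw, hu, hwu⟩
          · obtain ⟨h3, h4, h5⟩ := hZ1 p hp
            exact ⟨Finset.mem_of_mem_erase (Finset.mem_filter.1 h3).1,
              Finset.mem_of_mem_erase (Finset.mem_filter.1 h4).1, h5⟩) (by
          rw [List.pairwise_cons]
          refine ⟨?_, hZ2⟩
          intro p hp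
          obtain ⟨h3, h4, -⟩ := hZ1 p hp
          exact ⟨(Finset.mem_filter.1 h3).2, (Finset.mem_filter.1 h4).2⟩)
        rw [List.length_cons] at h2
        omega)
      obtain ⟨K2, hK2, hK2c⟩ := ih (W.erase w) (by omega) (d' + 1) (by
        intro Z hZ1 hZ2
        refine hd Z (fun p hp => ?_) hZ2
        obtain ⟨h3, h4, h5⟩ := hZ1 p hp
        exact ⟨Finset.mem_of_mem_erase h3, Finset.mem_of_mem_erase h4, h5⟩)
      have hA : ∀ σ ∈ fam N (W.erase w), w ∉ σ := fun σ hσ hwσ =>
        Finset.notMem_erase w W (hσ.1 hwσ)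
      have hB : ∀ σ ∈ lft w K1, σ.card ≤ d' + 1 := by
        intro σ hσ
        have h2 := hK1c _ hσ.2
        rw [Finset.card_erase_of_mem hσ.1] at h2
        omega
      refine ⟨K2 ∪ lft w K1, ?_, ?_⟩
      · rw [fam_eq N hr hs W w hw]
        refine (steps_lift w _ hA ?_ hK1).trans (steps_union _ hB ?_ hK2)
        · intro σ hσ hwσ
          have h2 := (Finset.mem_filter.1 (hσ.1 hwσ)).1
          exact Finset.notMem_erase w W h2
        · intro σ hσ hσ'
          exact hA σ hσ' hσ.1
      · rintro σ (hσ | hσ)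
        · exact hK2c σ hσ
        · exact hB σ hσ

theorem Step.elemCollapse {d : ℕ} (hd : 1 ≤ d) {K L : Set (Finset V)} (h : Step d K L) :
    ElemCollapse (K \ {∅}) (L \ {∅}) := by
  obtain ⟨ρ, v, hv, hdρ, hρ, hvρ, hfree, rfl⟩ := h
  have hρ0 : ρ ≠ ∅ := by
    rintro rfl
    rw [Finset.card_empty] at hdρ
    omega
  refine ⟨ρ, ⟨hρ, hρ0⟩, insert v ρ, ⟨hvρ, Finset.insert_ne_empty _ _⟩, Finset.ssubset_insert hv,
    Finset.card_insert_of_notMem hv, ?_, ?_⟩
  · intro σ hσ hss
    exact hfree σ hσ.1 hss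
  · ext σ
    simp only [Set.mem_diff, Set.mem_insert_iff, Set.mem_singleton_iff]
    tauto

theorem steps_collapses {d : ℕ} (hd : 1 ≤ d) {K L : Set (Finset V)}
    (h : ReflTransGen (Step d) K L) : Collapses (K \ {∅}) (L \ {∅}) := by
  induction h with
  | refl => exact ReflTransGen.refl
  | tail _ hbc ih => exact ReflTransGen.tail ih (hbc.elemCollapse hd)

theorem cliqueComplex_isComplex (G : SimpleGraph V) : IsComplex (cliqueComplex G) := by
  refine ⟨fun σ hσ => hσ.1, ?_⟩
  intro σ hσ ρ hρ hne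
  exact ⟨hne, hσ.2.subset (Finset.coe_subset.2 hρ)⟩

/-- If every chain of vertices and non-neighbours has length at most `D`, the clique complex
collapses to a subcomplex of dimension at most `D - 1`. -/
theorem exists_collapse [Fintype V] (G : SimpleGraph V) (D : ℕ) (hD : 1 ≤ D)
    (h : ∀ Z : List (V × V), (∀ p ∈ Z, ¬ (p.1 = p.2 ∨ G.Adj p.1 p.2)) →
      Z.Pairwise (fun p q => (p.1 = q.1 ∨ G.Adj p.1 q.1) ∧ (p.1 = q.2 ∨ G.Adj p.1 q.2)) →
      Z.length ≤ D) :
    ∃ L, IsComplex L ∧ L ⊆ skeleton (D - 1) (cliqueComplex G) ∧ Collapses (cliqueComplex G) L := by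
  classical
  obtain ⟨K, hK, hKc⟩ := reduce (fun x y => x = y ∨ G.Adj x y) (fun x => Or.inl rfl)
    (fun x y h => h.imp Eq.symm fun h => h.symm) _ Finset.univ le_rfl D (fun Z hZ1 hZ2 =>
      h Z (fun p hp => (hZ1 p hp).2.2) hZ2)
  have h1 := steps_collapses hD hK
  have h2 : fam (fun x y => x = y ∨ G.Adj x y) Finset.univ \ {∅} = cliqueComplex G := by
    ext σ
    simp only [fam, cliqueComplex, Set.mem_diff, Set.mem_setOf_eq, Set.mem_singleton_iff,
      Finset.subset_univ, true_and, Finset.nonempty_iff_ne_empty, SimpleGraph.IsClique,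
      Set.Pairwise, Finset.mem_coe]
    constructor
    · rintro ⟨h1, h2⟩
      exact ⟨h2, fun x hx y hy hxy => (h1 x hx y hy).resolve_left hxy⟩
    · rintro ⟨h1, h2⟩
      refine ⟨fun x hx y hy => ?_, h1⟩
      by_cases hxy : x = y
      · exact Or.inl hxy
      · exact Or.inr (h2 hx hy hxy)
  rw [h2] at h1
  refine ⟨_, h1.isComplex (cliqueComplex_isComplex G), ?_, h1⟩
  intro σ hσ
  refine ⟨h1.subset hσ, ?_⟩
  have := hKc σ hσ.1
  omega

/-- A complex collapses to its `k`-skeleton only if it equals it. -/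
theorem collapses_skeleton_iff (K : Set (Finset V)) (hK : IsComplex K) (k : ℕ) :
    Collapses K (skeleton k K) ↔ skeleton k K = K := by
  constructor
  · intro h
    rcases ReflTransGen.cases_tail h with h1 | ⟨L, hKL, σ, hσ, τ, hτ, hst, hcard, hfree, heq⟩
    · exact h1.symm ▸ rfl
    · exfalso
      have hL : IsComplex L := Collapses.isComplex hK hKL
      have hLK : L ⊆ K := Collapses.subset hKL
      have hσ' : σ ∉ skeleton k K := by
        rw [heq]
        intro h'
        exact h'.2 (Or.inl rfl)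
      have hσc : k + 1 < σ.card := by
        by_contra hcon
        exact hσ' ⟨hLK hσ, by omega⟩
      -- another facet of `τ`
      obtain ⟨x, hx⟩ : σ.Nonempty := hL.1 σ hσ
      have hxτ : x ∈ τ := hst.1 hx
      have h2 : τ.erase x ∈ L := by
        refine hL.2 τ hτ _ (Finset.erase_subset _ _) ?_
        rw [← Finset.card_pos, Finset.card_erase_of_mem hxτ]
        omega
      have h3 : τ.erase x ∈ skeleton k K := by
        rw [heq]
        refine ⟨h2, ?_⟩
        rintro (h' | h')
        · exact Finset.notMem_erase x τ (h'.symm ▸ hx)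
        · exact Finset.notMem_erase x τ ((Set.mem_singleton_iff.1 h').symm ▸ hxτ)
      have h4 := h3.2
      rw [Finset.card_erase_of_mem hxτ] at h4
      omega
  · intro h
    rw [h]
    exact ReflTransGen.refl

end Q181.Cube
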