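import Pool.Agent.Q181.Cube.Bound
import Pool.Agent.Q181.Cube.Collapse

/-! The Hamming-distance graphs of initial segments of the natural numbers. -/

set_option autoImplicit false

namespace Q181.Cube

/-- The number of binary digits in which `x` and `y` differ. -/
noncomputable def ham (x y : ℕ) : ℕ := {i : ℕ | x.testBit i ≠ y.testBit i}.ncard

theorem ham_comm (x y : ℕ) : ham x y = ham y x := by
  unfold ham
  congr 1
  ext i
  exact ne_comm

/-- The graph `G_m^r` on `{0, …, m-1}`: `x ≠ y` are adjacent when their binary expansions differ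
in at most `r` digits. -/
noncomputable def hamGraph (m r : ℕ) : SimpleGraph (Fin m) where
  Adj x y := x ≠ y ∧ ham x y ≤ r
  symm := ⟨fun x y h => ⟨h.1.symm, by rw [ham_comm]; exact h.2⟩⟩
  loopless := ⟨fun _ h => h.1 rfl⟩

/-- The positions of the digits `1`. -/
def bits (x : ℕ) : Finset ℕ := (Finset.range x).filter fun i => x.testBit i = true

theorem mem_bits (x i : ℕ) : i ∈ bits x ↔ x.testBit i = true := by
  rw [bits, Finset.mem_filter, Finset.mem_range]
  refine ⟨fun h => h.2, fun h => ⟨?_, h⟩⟩
  have h1 : 2 ^ i ≤ x := Nat.ge_two_pow_of_testBit h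
  exact lt_of_lt_of_le i.lt_two_pow_self h1

theorem ham_eq (x y : ℕ) : ham x y = (symmDiff (bits x) (bits y)).card := by
  rw [ham, ← Set.ncard_coe_finset]
  congr 1
  ext i
  rw [Finset.mem_coe, Finset.mem_symmDiff, mem_bits, mem_bits, Set.mem_setOf_eq]
  cases x.testBit i <;> cases y.testBit i <;> simp

theorem ham_self (x : ℕ) : ham x x = 0 := by
  rw [ham_eq, symmDiff_self]
  rfl

theorem exists_collapse_hamGraph (m r : ℕ) :
    ∃ L, IsComplex L ∧ L ⊆ skeleton (2 ^ r - 1) (cliqueComplex (hamGraph m r)) ∧
      Collapses (cliqueComplex (hamGraph m r)) L := by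
  apply exists_collapse _ _ (Nat.one_le_two_pow)
  intro Z hZ1 hZ2
  have key : ∀ x y : Fin m, (x = y ∨ (hamGraph m r).Adj x y) ↔
      (symmDiff (bits x) (bits y)).card ≤ r := by
    intro x y
    rw [← ham_eq]
    constructor
    · rintro (rfl | h)
      · rw [ham_self]; exact Nat.zero_le _
      · exact h.2
    · intro h
      by_cases hxy : x = y
      · exact Or.inl hxy
      · exact Or.inr ⟨hxy, h⟩
  have h1 := chain_length_le (r := r) (Z.map fun p => (bits (p.1 : ℕ), bits (p.2 : ℕ))) (by
    intro p hp
    rw [List.mem_map] at hp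
    obtain ⟨q, hq, rfl⟩ := hp
    have := hZ1 q hq
    rw [key] at this
    exact not_le.1 this) (by
    rw [List.pairwise_map]
    refine hZ2.imp ?_
    intro a b h
    exact ⟨(key _ _).1 h.1, (key _ _).1 h.2⟩)
  rwa [List.length_map] at h1

end Q181.Cube
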