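import Pool.Agent.W273.VR.Hom
import Pool.Agent.Q181.Cube.Collapse

/-! Elementary collapses preserve non-vanishing homology (oriented chains as alternating functions
on tuples of vertices). -/

set_option autoImplicit false

namespace Q181.Cube

open Relation Pool.Agent.W273.VR

variable {V : Type} [Fintype V] [DecidableEq V]

/-- Alternating functions. -/
def Alt {m : ℕ} (f : (Fin m → V) → ℤ) : Prop :=
  ∀ (v : Fin m → V) (σ : Equiv.Perm (Fin m)), f (v ∘ σ) = (σ.sign : ℤ) * f v

theorem cons_comp {m : ℕ} (x : V) (v : Fin m → V) (σ : Equiv.Perm (Fin m)) :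
    (Fin.cons x v : Fin (m + 1) → V) ∘ (Equiv.Perm.decomposeFin.symm (0, σ)) =
      Fin.cons x (v ∘ σ) := by
  funext i
  refine Fin.cases ?_ (fun i => ?_) i
  · simp
  · simp

theorem alt_boundary {m : ℕ} {f : (Fin (m + 1) → V) → ℤ} (hf : Alt f) : Alt (boundary f) := by
  intro v σ
  unfold boundary
  rw [Finset.mul_sum]
  refine Finset.sum_congr rfl fun x _ => ?_
  rw [← cons_comp, hf, Equiv.Perm.decomposeFin.symm_sign]
  simp

theorem boundary_boundary {m : ℕ} {f : (Fin (m + 2) → V) → ℤ} (hf : Alt f) :
    boundary (boundary f) = 0 := by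
  funext v
  have h : ∀ x y : V, f (Fin.cons y (Fin.cons x v)) = - f (Fin.cons x (Fin.cons y v)) := by
    intro x y
    have h1 := hf (Fin.cons x (Fin.cons y v)) (Equiv.swap 0 1)
    rw [Equiv.Perm.sign_swap (Fin.zero_ne_one : (0 : Fin (m + 2)) ≠ 1)] at h1
    have h2 : (Fin.cons x (Fin.cons y v) : Fin (m + 2) → V) ∘ (Equiv.swap 0 1) =
        Fin.cons y (Fin.cons x v) := by
      funext i
      refine Fin.cases ?_ (fun i => ?_) i
      · simp [Equiv.swap_apply_left]
      · refine Fin.cases ?_ (fun i => ?_) i
        · have : (Equiv.swap (0 : Fin (m + 2)) 1) (Fin.succ 0) = 0 := by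
            rw [Fin.succ_zero_eq_one]; exact Equiv.swap_apply_right _ _
          rw [Function.comp_apply, this]
          simp
        · have : (Equiv.swap (0 : Fin (m + 2)) 1) i.succ.succ = i.succ.succ := by
            apply Equiv.swap_apply_of_ne_of_ne
            · exact Fin.succ_ne_zero _
            · intro h
              rw [← Fin.succ_zero_eq_one] at h
              exact Fin.succ_ne_zero _ (Fin.succ_injective _ h)
          rw [Function.comp_apply, this]
          simp
    rw [h2] at h1
    rw [h1]
    simp
  show ∑ x, ∑ y, f (Fin.cons y (Fin.cons x v)) = 0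
  have h2 : ∑ x, ∑ y, f (Fin.cons y (Fin.cons x v)) = - ∑ x, ∑ y, f (Fin.cons y (Fin.cons x v)) := by
    conv_lhs => rw [Finset.sum_comm]
    rw [← Finset.sum_neg_distrib]
    refine Finset.sum_congr rfl fun y _ => ?_
    rw [← Finset.sum_neg_distrib]
    exact Finset.sum_congr rfl fun x _ => h x y
  omega

/-- The oriented simplex `[t₀, …, t_{m-1}]`. -/
def simplexChain {m : ℕ} (t : Fin m → V) : (Fin m → V) → ℤ :=
  fun u => (Matrix.of fun j i => if u j = t i then (1 : ℤ) else 0).det

theorem simplexChain_ne_zero {m : ℕ} {t u : Fin m → V} (h : simplexChain t u ≠ 0) :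
    ∃ τ : Equiv.Perm (Fin m), ∀ i, u (τ i) = t i := by
  unfold simplexChain at h
  rw [Matrix.det_apply] at h
  obtain ⟨τ, -, hτ⟩ := Finset.exists_ne_zero_of_sum_ne_zero h
  refine ⟨τ, fun i => ?_⟩
  by_contra hi
  apply hτ
  have hp : ∏ i, (Matrix.of fun j i => if u j = t i then (1 : ℤ) else 0) (τ i) i = 0 :=
    Finset.prod_eq_zero (Finset.mem_univ i) (by rw [Matrix.of_apply, if_neg hi])
  rw [hp, smul_zero]

theorem simplexChain_self {m : ℕ} {t : Fin m → V} (ht : Function.Injective t) :
    simplexChain t t = 1 := by
  unfold simplexChain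
  have : (Matrix.of fun j i => if t j = t i then (1 : ℤ) else 0) = 1 := by
    ext j i
    rw [Matrix.of_apply, Matrix.one_apply]
    by_cases h : j = i
    · rw [if_pos h, if_pos (by rw [h])]
    · rw [if_neg h, if_neg fun h' => h (ht h')]
  rw [this, Matrix.det_one]

theorem simplexChain_alt {m : ℕ} (t : Fin m → V) : Alt (simplexChain t) := by
  intro v σ
  have h1 : (Matrix.of fun j i => if (v ∘ σ) j = t i then (1 : ℤ) else 0) =
      (Matrix.of fun j i => if v j = t i then (1 : ℤ) else 0).submatrix σ id := rfl
  unfold simplexChain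
  rw [h1, Matrix.det_permute, Int.cast_id]

theorem exists_perm {m : ℕ} {t u : Fin m → V} (ht : Function.Injective t)
    (hu : Function.Injective u) (h : Finset.univ.image u = Finset.univ.image t) :
    ∃ π : Equiv.Perm (Fin m), u = t ∘ π := by
  have hr : Set.range u = Set.range t := by
    have := congrArg (fun s : Finset V => (s : Set V)) h
    simpa using this
  refine ⟨(Equiv.ofInjective u hu).trans ((Equiv.setCongr hr).trans
    (Equiv.ofInjective t ht).symm), ?_⟩
  funext i
  simp only [Function.comp_apply, Equiv.trans_apply]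
  rw [Equiv.apply_ofInjective_symm ht]
  rfl

theorem image_cons {m : ℕ} (x : V) (v : Fin m → V) :
    Finset.univ.image (Fin.cons x v : Fin (m + 1) → V) = insert x (Finset.univ.image v) := by
  ext y
  simp only [Finset.mem_image, Finset.mem_univ, true_and, Finset.mem_insert]
  constructor
  · rintro ⟨i, rfl⟩
    refine Fin.cases ?_ (fun i => ?_) i
    · left; simp
    · right; exact ⟨i, by simp⟩
  · rintro (rfl | ⟨i, rfl⟩)
    · exact ⟨0, by simp⟩
    · exact ⟨i.succ, by simp⟩

theorem exists_enum (σ : Finset V) {k : ℕ} (h : σ.card = k) :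
    ∃ s : Fin k → V, Function.Injective s ∧ Finset.univ.image s = σ := by
  refine ⟨fun i => ((σ.equivFinOfCardEq h).symm i : V), ?_, ?_⟩
  · intro i j hij
    exact (σ.equivFinOfCardEq h).symm.injective (Subtype.ext hij)
  · ext x
    simp only [Finset.mem_image, Finset.mem_univ, true_and]
    constructor
    · rintro ⟨i, rfl⟩
      exact ((σ.equivFinOfCardEq h).symm i).2
    · intro hx
      exact ⟨σ.equivFinOfCardEq h ⟨x, hx⟩, by simp⟩

theorem card_image_of_chain {K : Finset V → Prop} {m : ℕ} {f : (Fin m → V) → ℤ}
    (hf : IsChain K m f) {u : Fin m → V} (hu : f u ≠ 0) : (Finset.univ.image u).card = m := by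
  rw [Finset.card_image_of_injective _ (hf.distinct u hu), Finset.card_univ, Fintype.card_fin]

theorem isChain_mono {K L : Finset V → Prop} (h : ∀ σ, K σ → L σ) {m : ℕ} {f : (Fin m → V) → ℤ}
    (hf : IsChain K m f) : IsChain L m f :=
  ⟨fun v hv => h _ (hf.support v hv), hf.distinct, hf.alternating⟩

theorem homologyNonzero_of_elemCollapse {K L : Set (Finset V)} (hK : IsComplex K)
    (h : ElemCollapse K L) {q : ℕ} (hq : HomologyNonzero (fun σ => σ ∈ K) q) :
    HomologyNonzero (fun σ => σ ∈ L) q := by
  obtain ⟨σ, hσ, τ, hτ, hst, hcard, hfree, rfl⟩ := h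
  by_contra hcon
  have hL : ∀ z : (Fin (q + 1) → V) → ℤ, IsChain (fun ρ => ρ ∈ K \ {σ, τ}) (q + 1) z →
      boundary z = 0 → ∃ w : (Fin (q + 2) → V) → ℤ,
      IsChain (fun ρ => ρ ∈ K \ {σ, τ}) (q + 2) w ∧ boundary w = z := by
    intro z hz1 hz2
    by_contra h
    push Not at h
    exact hcon ⟨z, hz1, hz2, h⟩
  obtain ⟨z, hz, hz0, hzw⟩ := hq
  -- the additional vertex
  obtain ⟨v, hvτ, hvσ⟩ : ∃ v ∈ τ, v ∉ σ := Finset.exists_of_ssubset hst
  have hτe : τ = insert v σ := by
    symm
    apply Finset.eq_of_subset_of_card_le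
    · exact Finset.insert_subset hvτ hst.1
    · rw [Finset.card_insert_of_notMem hvσ]; omega
  obtain ⟨s, hs, hsσ⟩ := exists_enum σ (k := σ.card) rfl
  have hvs : ∀ i, s i ≠ v := fun i hi => hvσ (by
    rw [← hsσ, ← hi]; exact Finset.mem_image_of_mem _ (Finset.mem_univ i))
  have ht : Function.Injective (Fin.cons v s : Fin (σ.card + 1) → V) := by
    rw [Fin.cons_injective_iff]
    refine ⟨?_, hs⟩
    rintro ⟨i, hi⟩
    exact hvs i hi
  have htτ : Finset.univ.image (Fin.cons v s : Fin (σ.card + 1) → V) = τ := by
    rw [image_cons, hsσ, ← hτe]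
  have sub : ∀ ρ, ρ ∈ K \ {σ, τ} → ρ ∈ K := fun ρ h => h.1
  -- a chain that vanishes on `σ` and `τ` is a chain of the smaller complex
  have good : ∀ z' : (Fin (q + 1) → V) → ℤ, IsChain (fun ρ => ρ ∈ K) (q + 1) z' →
      (∀ u, z' u ≠ 0 → Finset.univ.image u ≠ σ ∧ Finset.univ.image u ≠ τ) →
      IsChain (fun ρ => ρ ∈ K \ {σ, τ}) (q + 1) z' := by
    intro z' hz' h'
    refine ⟨fun u hu => ⟨hz'.support u hu, ?_⟩, hz'.distinct, hz'.alternating⟩
    rintro (h1 | h1)
    · exact (h' u hu).1 h1
    · exact (h' u hu).2 h1
  rcases Nat.lt_trichotomy (q + 1) σ.card with hlt | heq | hgt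
  · obtain ⟨w, hw, hwz⟩ := hL z (good z hz fun u hu => by
      have h1 := card_image_of_chain hz hu
      constructor
      · rintro h2; rw [h2] at h1; omega
      · rintro h2; rw [h2] at h1; omega) hz0
    exact hzw w (isChain_mono sub hw) hwz
  · -- `dim σ = q`
    obtain ⟨s, hs, hsσ⟩ := exists_enum σ (k := q + 1) heq.symm
    have hvs : ∀ i, s i ≠ v := fun i hi => hvσ (by
      rw [← hsσ, ← hi]; exact Finset.mem_image_of_mem _ (Finset.mem_univ i))
    have ht : Function.Injective (Fin.cons v s : Fin (q + 2) → V) := by
      rw [Fin.cons_injective_iff]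
      refine ⟨?_, hs⟩
      rintro ⟨i, hi⟩
      exact hvs i hi
    have htτ : Finset.univ.image (Fin.cons v s : Fin (q + 2) → V) = τ := by
      rw [image_cons, hsσ, ← hτe]
    set e := simplexChain (Fin.cons v s : Fin (q + 2) → V) with he
    have hesupp : ∀ u, e u ≠ 0 → Function.Injective u ∧ Finset.univ.image u = τ := by
      intro u hu
      obtain ⟨π, hπ⟩ := simplexChain_ne_zero hu
      have hu' : u = (Fin.cons v s : Fin (q + 2) → V) ∘ π.symm := by
        funext i
        rw [Function.comp_apply, ← hπ, Equiv.apply_symm_apply]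
      refine ⟨hu' ▸ ht.comp π.symm.injective, ?_⟩
      rw [← htτ, hu']
      ext y
      simp only [Finset.mem_image, Finset.mem_univ, true_and, Function.comp_apply]
      constructor
      · rintro ⟨i, rfl⟩; exact ⟨_, rfl⟩
      · rintro ⟨i, rfl⟩; exact ⟨π i, by simp⟩
    have hechain : IsChain (fun ρ => ρ ∈ K) (q + 2) e :=
      ⟨fun u hu => by rw [(hesupp u hu).2]; exact hτ, fun u hu => (hesupp u hu).1,
        simplexChain_alt _⟩
    have hde : ∀ u, boundary e u ≠ 0 → Function.Injective u ∧ Finset.univ.image u ⊆ τ := by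
      intro u hu
      obtain ⟨x, -, hx⟩ := Finset.exists_ne_zero_of_sum_ne_zero hu
      obtain ⟨h1, h2⟩ := hesupp _ hx
      refine ⟨?_, ?_⟩
      · intro i j hij
        have := h1 (a₁ := i.succ) (a₂ := j.succ) (by simpa using hij)
        exact Fin.succ_injective _ this
      · rw [← h2, image_cons]
        exact Finset.subset_insert _ _
    have hdes : boundary e s = 1 := by
      unfold boundary
      rw [Finset.sum_eq_single v]
      · exact simplexChain_self ht
      · intro x _ hxv
        by_contra hx
        obtain ⟨h1, h2⟩ := hesupp _ hx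
        have h3 : x ∈ τ := by
          rw [← h2, image_cons]; exact Finset.mem_insert_self _ _
        rw [hτe, Finset.mem_insert] at h3
        rcases h3 with h3 | h3
        · exact hxv h3
        · rw [← hsσ, Finset.mem_image] at h3
          obtain ⟨i, -, hi⟩ := h3
          have := h1 (a₁ := 0) (a₂ := i.succ) (by simpa using hi.symm)
          exact Fin.succ_ne_zero _ this.symm
      · intro h; exact absurd (Finset.mem_univ v) h
    have hdechain : IsChain (fun ρ => ρ ∈ K) (q + 1) (boundary e) := by
      refine ⟨fun u hu => ?_, fun u hu => (hde u hu).1, alt_boundary (simplexChain_alt _)⟩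
      refine hK.2 τ hτ _ (hde u hu).2 ?_
      exact ⟨u 0, Finset.mem_image_of_mem _ (Finset.mem_univ 0)⟩
    set c := z s with hc
    have hz'chain : IsChain (fun ρ => ρ ∈ K) (q + 1) (z - c • boundary e) := by
      have hne : ∀ u, (z - c • boundary e) u ≠ 0 → z u ≠ 0 ∨ boundary e u ≠ 0 := by
        intro u hu
        by_contra hcon
        push Not at hcon
        apply hu
        rw [Pi.sub_apply, Pi.smul_apply, hcon.1, hcon.2]
        simp
      refine ⟨fun u hu => ?_, fun u hu => ?_, fun u π => ?_⟩
      · rcases hne u hu with h | h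
        · exact hz.support u h
        · exact hdechain.support u h
      · rcases hne u hu with h | h
        · exact hz.distinct u h
        · exact hdechain.distinct u h
      · rw [Pi.sub_apply, Pi.smul_apply, Pi.sub_apply, Pi.smul_apply, hz.alternating,
          hdechain.alternating, smul_eq_mul, smul_eq_mul]
        ring
    have hlin : ∀ (m : ℕ) (f g : (Fin (m + 1) → V) → ℤ) (a : ℤ),
        boundary (f + a • g) = boundary f + a • boundary g := by
      intro m f g a
      funext u
      unfold boundary
      rw [Pi.add_apply, Pi.smul_apply, smul_eq_mul, Finset.mul_sum, ← Finset.sum_add_distrib]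
      rfl
    have hz'0 : boundary (z - c • boundary e) = 0 := by
      have := hlin _ z (boundary e) (-c)
      rw [boundary_boundary (simplexChain_alt _), hz0, smul_zero, add_zero, neg_smul,
        ← sub_eq_add_neg] at this
      exact this
    have hz's : (z - c • boundary e) s = 0 := by
      rw [Pi.sub_apply, Pi.smul_apply, hdes, ← hc]
      simp
    obtain ⟨w, hw, hwz⟩ := hL _ (good _ hz'chain fun u hu => by
      have h1 := card_image_of_chain hz'chain hu
      constructor
      · intro h2
        obtain ⟨π, hπ⟩ := exists_perm hs (hz'chain.distinct u hu) (h2.trans hsσ.symm)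
        apply hu
        rw [hπ, hz'chain.alternating, hz's, mul_zero]
      · intro h2
        rw [h2] at h1
        omega) hz'0
    refine hzw (w + c • e) ?_ ?_
    · have hne : ∀ u, (w + c • e) u ≠ 0 → w u ≠ 0 ∨ e u ≠ 0 := by
        intro u hu
        by_contra hcon
        push Not at hcon
        apply hu
        rw [Pi.add_apply, Pi.smul_apply, hcon.1, hcon.2]
        simp
      refine ⟨fun u hu => ?_, fun u hu => ?_, fun u π => ?_⟩
      · rcases hne u hu with h | h
        · exact (hw.support u h).1
        · exact hechain.support u h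
      · rcases hne u hu with h | h
        · exact hw.distinct u h
        · exact hechain.distinct u h
      · rw [Pi.add_apply, Pi.smul_apply, Pi.add_apply, Pi.smul_apply, hw.alternating,
          hechain.alternating, smul_eq_mul, smul_eq_mul]
        ring
    · rw [hlin, hwz, sub_add_cancel]
  · rcases Nat.lt_or_ge (σ.card + 1) (q + 1) with h2 | h2
    · obtain ⟨w, hw, hwz⟩ := hL z (good z hz fun u hu => by
        have h1 := card_image_of_chain hz hu
        constructor
        · rintro h2; rw [h2] at h1; omega
        · rintro h2; rw [h2] at h1; omega) hz0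
      exact hzw w (isChain_mono sub hw) hwz
    · -- `dim τ = q`
      have hq : σ.card = q := by omega
      obtain ⟨s, hs, hsσ⟩ := exists_enum σ (k := q) hq
      have hvs : ∀ i, s i ≠ v := fun i hi => hvσ (by
        rw [← hsσ, ← hi]; exact Finset.mem_image_of_mem _ (Finset.mem_univ i))
      have ht : Function.Injective (Fin.cons v s : Fin (q + 1) → V) := by
        rw [Fin.cons_injective_iff]
        refine ⟨?_, hs⟩
        rintro ⟨i, hi⟩
        exact hvs i hi
      have htτ : Finset.univ.image (Fin.cons v s : Fin (q + 1) → V) = τ := by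
        rw [image_cons, hsσ, ← hτe]
      have hzt : z (Fin.cons v s) = 0 := by
        have h1 := congrFun hz0 s
        unfold boundary at h1
        rw [Finset.sum_eq_single v] at h1
        · exact h1
        · intro x _ hxv
          by_contra hx
          have h3 := hz.support _ hx
          have h4 := hz.distinct _ hx
          rw [image_cons, hsσ] at h3
          have hxσ : x ∉ σ := by
            intro hxσ
            rw [← hsσ, Finset.mem_image] at hxσ
            obtain ⟨i, -, hi⟩ := hxσ
            have := h4 (a₁ := 0) (a₂ := i.succ) (by simpa using hi.symm)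
            exact Fin.succ_ne_zero _ this.symm
          have h5 := hfree _ h3 (Finset.ssubset_insert hxσ)
          have h6 : x ∈ τ := h5 ▸ Finset.mem_insert_self _ _
          rw [hτe, Finset.mem_insert] at h6
          rcases h6 with h6 | h6
          · exact hxv h6
          · exact hxσ h6
        · intro h; exact absurd (Finset.mem_univ v) h
      obtain ⟨w, hw, hwz⟩ := hL z (good z hz fun u hu => by
        have h1 := card_image_of_chain hz hu
        constructor
        · rintro h2; rw [h2] at h1; omega
        · intro h2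
          obtain ⟨π, hπ⟩ := exists_perm ht (hz.distinct u hu) (h2.trans htτ.symm)
          apply hu
          rw [hπ, hz.alternating, hzt, mul_zero]) hz0
      exact hzw w (isChain_mono sub hw) hwz

theorem homologyNonzero_of_collapses {K L : Set (Finset V)} (hK : IsComplex K)
    (h : Collapses K L) {q : ℕ} (hq : HomologyNonzero (fun σ => σ ∈ K) q) :
    HomologyNonzero (fun σ => σ ∈ L) q := by
  induction h with
  | refl => exact hq
  | tail hab hbc ih => exact homologyNonzero_of_elemCollapse (Collapses.isComplex hK hab) hbc ih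

theorem not_homologyNonzero_of_card {L : Set (Finset V)} {d q : ℕ} (h : ∀ σ ∈ L, σ.card ≤ d)
    (hd : d ≤ q) : ¬ HomologyNonzero (fun σ => σ ∈ L) q := by
  rintro ⟨z, hz, -, hz'⟩
  have h0 : z = 0 := by
    funext u
    by_contra hu
    have h1 := h _ (hz.support u hu)
    rw [card_image_of_chain hz hu] at h1
    omega
  refine hz' 0 ⟨fun v h => absurd rfl h, fun v h => absurd rfl h, fun v σ => by simp⟩ ?_
  rw [h0]
  funext v
  unfold boundary
  simp

end Q181.Cube
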