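import Pool.Agent.Q181.Cube.Bound
import Pool.Agent.Q181.Cube.Homology
import Pool.Agent.W273.VR.Main

/-! Homology of Vietoris-Rips complexes of subsets of the cube: vanishing in degrees at least
`2^r`, and the top non-vanishing degree for the whole cube. -/

set_option autoImplicit false

namespace Q181.Cube

open Pool.Agent.W273.VR

/-- Vanishing from a bound on chains of vertices and non-neighbours. -/
theorem not_homologyNonzero_of_chain {V : Type} [Fintype V] [DecidableEq V] (N : V → V → Prop)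
    (hr : ∀ x, N x x) (hs : ∀ x y, N x y → N y x) (X : Finset V) (D : ℕ) (hD : 1 ≤ D)
    (h : ∀ Z : List (V × V), (∀ p ∈ Z, p.1 ∈ X ∧ p.2 ∈ X ∧ ¬ N p.1 p.2) →
      Z.Pairwise (fun p q => N p.1 q.1 ∧ N p.1 q.2) → Z.length ≤ D) {q : ℕ} (hq : D ≤ q) :
    ¬ HomologyNonzero (fun σ : Finset V => σ.Nonempty ∧ σ ⊆ X ∧ ∀ x ∈ σ, ∀ y ∈ σ, N x y) q := by
  classical
  obtain ⟨K, hK, hKc⟩ := reduce N hr hs _ X le_rfl D h
  have h1 := steps_collapses hD hK
  have hcx : IsComplex (fam N X \ {∅}) := by
    refine ⟨fun σ hσ => Finset.nonempty_iff_ne_empty.2 hσ.2, ?_⟩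
    rintro σ ⟨⟨h1, h2⟩, -⟩ ρ hρ hne
    exact ⟨⟨hρ.trans h1, fun x hx y hy => h2 x (hρ hx) y (hρ hy)⟩, hne.ne_empty⟩
  intro hcon
  have heq : (fun σ : Finset V => σ.Nonempty ∧ σ ⊆ X ∧ ∀ x ∈ σ, ∀ y ∈ σ, N x y) =
      fun σ => σ ∈ fam N X \ {∅} := by
    funext σ
    apply propext
    rw [Set.mem_diff, Set.mem_singleton_iff, Finset.nonempty_iff_ne_empty]
    unfold fam
    rw [Set.mem_setOf_eq]
    tauto
  rw [heq] at hcon
  exact not_homologyNonzero_of_card (fun σ hσ => hKc σ hσ.1) hq
    (homologyNonzero_of_collapses hcx h1 hcon)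

/-- The positions of the entries `true`. -/
def ones' {n : ℕ} (x : Fin n → Bool) : Finset (Fin n) := Finset.univ.filter fun i => x i = true

theorem hammingDist_eq {n : ℕ} (x y : Fin n → Bool) :
    hammingDist x y = (symmDiff (ones' x) (ones' y)).card := by
  unfold hammingDist
  congr 1
  ext i
  rw [Finset.mem_symmDiff, ones', ones', Finset.mem_filter, Finset.mem_filter, Finset.mem_filter]
  cases x i <;> cases y i <;> simp

/-- All homology of `VR(X; r)`, `X` a set of vertices of the cube, vanishes from degree `2^r` on. -/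
theorem vanish {n : ℕ} (X : Finset (Fin n → Bool)) (r q : ℕ) (hq : 2 ^ r ≤ q) :
    ¬ HomologyNonzero (fun σ : Finset (Fin n → Bool) =>
      σ.Nonempty ∧ σ ⊆ X ∧ ∀ x ∈ σ, ∀ y ∈ σ, hammingDist x y ≤ r) q := by
  refine not_homologyNonzero_of_chain (fun x y => hammingDist x y ≤ r) (fun x => by
    rw [hammingDist_self]; exact Nat.zero_le r) (fun x y h => by rwa [hammingDist_comm]) X (2 ^ r)
    Nat.one_le_two_pow ?_ hq
  intro Z hZ1 hZ2
  have h1 := chain_length_le (r := r) (Z.map fun p => (ones' p.1, ones' p.2)) (by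
    intro p hp
    rw [List.mem_map] at hp
    obtain ⟨q, hq, rfl⟩ := hp
    have := (hZ1 q hq).2.2
    rw [hammingDist_eq] at this
    exact not_le.1 this) (by
    rw [List.pairwise_map]
    refine hZ2.imp ?_
    intro a b h
    rw [hammingDist_eq, hammingDist_eq] at h
    exact h)
  rwa [List.length_map] at h1

theorem vanish_cube (n r q : ℕ) (hq : 2 ^ r ≤ q) : ¬ HomologyNonzero (VRFace n r) q := by
  have h := vanish (n := n) Finset.univ r q hq
  intro hcon
  apply h
  have : (fun σ : Finset (Fin n → Bool) => σ.Nonempty ∧ σ ⊆ Finset.univ ∧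
      ∀ x ∈ σ, ∀ y ∈ σ, hammingDist x y ≤ r) = VRFace n r := by
    funext σ
    unfold VRFace
    simp
  rw [this]
  exact hcon

/-- The cross-polytopal sphere of an `(r+1)`-face is homologically non-trivial. -/
theorem top_cube (n r : ℕ) (hrn : r < n) : HomologyNonzero (VRFace n r) (2 ^ r - 1) := by
  classical
  have hcard : Fintype.card (Fin r → Bool) = 2 ^ r - 1 + 1 := by
    rw [Fintype.card_fun, Fintype.card_bool, Fintype.card_fin]
    have := Nat.one_le_two_pow (n := r)
    omega
  let e : Fin (2 ^ r - 1 + 1) ≃ (Fin r → Bool) := (Fintype.equivFinOfCardEq hcard).symm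
  let c : Fin (2 ^ r - 1 + 1) → Fin n → Bool := fun j i =>
    if h : (i : ℕ) < r then e j ⟨i, h⟩ else false
  let c' : Fin (2 ^ r - 1 + 1) → Fin n → Bool := fun j i =>
    if h : (i : ℕ) < r then !(e j ⟨i, h⟩) else decide ((i : ℕ) = r)
  let ir : Fin n := ⟨r, hrn⟩
  have hcr : ∀ j, c j ir = false := fun j => by simp [c, ir]
  have hcr' : ∀ j, c' j ir = true := fun j => by simp [c', ir]
  have hcl : ∀ j (i : Fin r), c j ⟨i, i.2.trans hrn⟩ = e j i := fun j i => by simp [c]
  have hcl' : ∀ j (i : Fin r), c' j ⟨i, i.2.trans hrn⟩ = !(e j i) := fun j i => by simp [c']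
  have hcg : ∀ j (i : Fin n), r < (i : ℕ) → c j i = false := fun j i h => by
    simp [c, not_lt.2 h.le]
  have hcg' : ∀ j (i : Fin n), r < (i : ℕ) → c' j i = false := fun j i h => by
    simp [c', not_lt.2 h.le, h.ne']
  -- distance at most `r` in the `(r+1)`-cube if some coordinate agrees
  have hdist : ∀ (x y : Fin n → Bool), (∀ i : Fin n, r < (i : ℕ) → x i = y i) →
      (∃ i : Fin n, (i : ℕ) ≤ r ∧ x i = y i) → hammingDist x y ≤ r := by
    rintro x y h1 ⟨i₀, hi₀, h2⟩
    have hsub : (Finset.univ.filter fun i => x i ≠ y i) ⊆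
        ((Finset.univ : Finset (Fin (r + 1))).image
          (fun i : Fin (r + 1) => (⟨i, lt_of_lt_of_le i.2 hrn⟩ : Fin n))).erase i₀ := by
      intro i hi
      rw [Finset.mem_filter] at hi
      rw [Finset.mem_erase]
      refine ⟨fun h => hi.2 (h ▸ h2), ?_⟩
      have hir : (i : ℕ) ≤ r := by
        by_contra hcon
        exact hi.2 (h1 i (not_le.1 hcon))
      exact Finset.mem_image.2 ⟨⟨i, Nat.lt_succ_of_le hir⟩, Finset.mem_univ _, rfl⟩
    have h3 := Finset.card_le_card hsub
    have h4 : i₀ ∈ (Finset.univ : Finset (Fin (r + 1))).image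
          (fun i : Fin (r + 1) => (⟨i, lt_of_lt_of_le i.2 hrn⟩ : Fin n)) :=
      Finset.mem_image.2 ⟨⟨i₀, Nat.lt_succ_of_le hi₀⟩, Finset.mem_univ _, rfl⟩
    rw [Finset.card_erase_of_mem h4] at h3
    have h5 := Finset.card_image_le (s := (Finset.univ : Finset (Fin (r + 1))))
      (f := fun i : Fin (r + 1) => (⟨i, lt_of_lt_of_le i.2 hrn⟩ : Fin n))
    rw [Finset.card_univ, Fintype.card_fin] at h5
    show (Finset.univ.filter fun i => x i ≠ y i).card ≤ r
    omega
  refine nontrivial_of (VRFace n r) c c' ?_ ?_ ?_ ?_ ?_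
  · intro j k hjk
    apply e.injective
    funext i
    rw [← hcl, ← hcl, hjk]
  · intro j k h
    have := congrFun h ir
    rw [hcr, hcr'] at this
    exact absurd this (by decide)
  · intro j k hjk
    apply e.injective
    funext i
    have := congrFun hjk ⟨i, i.2.trans hrn⟩
    rw [hcl', hcl'] at this
    exact Bool.not_inj this
  · intro ε
    refine ⟨⟨_, Finset.mem_image_of_mem _ (Finset.mem_univ 0)⟩, ?_⟩
    intro x hx y hy
    rw [Finset.mem_image] at hx hy
    obtain ⟨j, -, rfl⟩ := hx
    obtain ⟨k, -, rfl⟩ := hy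
    by_cases hjk : j = k
    · rw [hjk, hammingDist_self]; exact Nat.zero_le r
    obtain ⟨i₀, hi₀⟩ : ∃ i, e j i ≠ e k i := by
      by_contra hcon
      push Not at hcon
      exact hjk (e.injective (funext hcon))
    apply hdist
    · intro i hi
      cases ε j <;> cases ε k <;> simp [hcg _ i hi, hcg' _ i hi]
    · cases hj : ε j <;> cases hk : ε k
      · exact ⟨ir, le_rfl, by simp [hcr', hj, hk]⟩
      · refine ⟨⟨i₀, i₀.2.trans hrn⟩, i₀.2.le, ?_⟩
        simp only [hj, hk, Bool.false_eq_true, if_false, if_true]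
        rw [hcl, hcl']
        cases h1 : e j i₀ <;> cases h2 : e k i₀ <;> simp_all
      · refine ⟨⟨i₀, i₀.2.trans hrn⟩, i₀.2.le, ?_⟩
        simp only [hj, hk, Bool.false_eq_true, if_false, if_true]
        rw [hcl, hcl']
        cases h1 : e j i₀ <;> cases h2 : e k i₀ <;> simp_all
      · exact ⟨ir, le_rfl, by simp [hcr, hj, hk]⟩
  · intro σ hσ hc x hx
    -- the antipode of the projection of `x`
    let u : Fin r → Bool := fun i => !(x ⟨i, i.2.trans hrn⟩)
    obtain ⟨j, hj⟩ : ∃ j, e j = u := ⟨e.symm u, by simp⟩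
    have h1 := hσ.2 x hx (c j) (hc j)
    have h2 : ∀ i : Fin n, (i : ℕ) < r → x i ≠ c j i := by
      intro i hi h
      have := hcl j ⟨i, hi⟩
      rw [hj] at this
      have h3 : c j i = !(x i) := this
      rw [h3] at h
      cases hx : x i <;> simp [hx] at h
    have h3 : ∀ i : Fin n, r ≤ (i : ℕ) → x i = false := by
      intro i₀ hi₀
      by_contra hcon
      have hxi : x i₀ = true := by simpa using hcon
      have hsub : insert i₀ ((Finset.univ : Finset (Fin r)).image
          (fun i : Fin r => (⟨i, i.2.trans hrn⟩ : Fin n))) ⊆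
          (Finset.univ.filter fun i => x i ≠ c j i) := by
        intro i hi
        rw [Finset.mem_filter]
        refine ⟨Finset.mem_univ _, ?_⟩
        rw [Finset.mem_insert] at hi
        rcases hi with rfl | hi
        · rw [hxi]
          have : c j i = false := by simp [c, not_lt.2 hi₀]
          rw [this]
          decide
        · rw [Finset.mem_image] at hi
          obtain ⟨k, -, rfl⟩ := hi
          exact h2 _ k.2
      have h4 := Finset.card_le_card hsub
      rw [Finset.card_insert_of_notMem, Finset.card_image_of_injective, Finset.card_univ,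
        Fintype.card_fin] at h4
      · have h5 : (Finset.univ.filter fun i => x i ≠ c j i).card ≤ r := h1
        omega
      · intro a b hab
        have := congrArg (fun i : Fin n => (i : ℕ)) hab
        exact Fin.ext this
      · intro h
        rw [Finset.mem_image] at h
        obtain ⟨k, -, hk⟩ := h
        have h6 := congrArg (fun i : Fin n => (i : ℕ)) hk
        have h7 := k.2
        simp only at h6
        omega
    refine ⟨e.symm (fun i => x ⟨i, i.2.trans hrn⟩), ?_⟩
    funext i
    by_cases hi : (i : ℕ) < r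
    · simp [c, hi]
    · rw [h3 i (not_lt.1 hi)]
      simp [c, hi]

end Q181.Cube
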