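import Pool.Agent.Q181.Cube.Threshold
import Pool.Agent.Q181.Cube.Vanish

/-! Homology of Vietoris-Rips complexes of slices of the cube. -/

set_option autoImplicit false

namespace Q181.Cube

open Pool.Agent.W273.VR

section criterion

variable {V : Type} [Fintype V] [DecidableEq V]

/-- The transposition of the first entry and the entry `i + 1`. -/
theorem cons_comp_swap {m : ℕ} (x : V) (u : Fin m → V) (i : Fin m) :
    (Fin.cons x u : Fin (m + 1) → V) ∘ (Equiv.swap 0 i.succ) =
      Fin.cons (u i) (Function.update u i x) := by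
  funext k
  refine Fin.cases ?_ (fun k => ?_) k
  · rw [Function.comp_apply, Equiv.swap_apply_left]
    simp
  · by_cases hk : k = i
    · subst hk
      rw [Function.comp_apply, Equiv.swap_apply_right]
      simp
    · rw [Function.comp_apply, Equiv.swap_apply_of_ne_of_ne (Fin.succ_ne_zero _)
        (fun h => hk (Fin.succ_injective _ h))]
      simp [Function.update_of_ne hk]

/-- A criterion for non-vanishing homology: a cross-polytopal cycle one of whose facets becomes
maximal after applying a vertex map `g`. -/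
theorem nontrivial_of_map {U : Type} [DecidableEq U] (K : Finset V → Prop) (g : V → U) {q : ℕ}
    (c c' : Fin (q + 1) → V)
    (hc : Function.Injective fun i => g (c i)) (hcc : ∀ i j, g (c' i) ≠ g (c j))
    (hc' : Function.Injective c')
    (hK : ∀ ε : Fin (q + 1) → Bool, K (Finset.univ.image fun i => if ε i then c i else c' i))
    (hmax : ∀ σ, K σ → (∀ i, ∃ x ∈ σ, g x = g (c i)) → ∀ x ∈ σ, ∃ i, g x = g (c i)) :
    HomologyNonzero K q := by
  classical
  have hc0 : Function.Injective c := fun i j h => hc (congrArg g h)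
  have hcc0 : ∀ i j, c' i ≠ c j := fun i j h => hcc i j (congrArg g h)
  let M : (Fin (q + 1) → V) → Matrix (Fin (q + 1)) (Fin (q + 1)) ℤ :=
    fun v => Matrix.of fun j i => row (c i) (c' i) (v j)
  have hM : ∀ v j i, M v j i = row (c i) (c' i) (v j) := fun v j i => rfl
  have htrans : ∀ v, (M v).det ≠ 0 → ∃ (τ : Equiv.Perm (Fin (q + 1))) (ε : Fin (q + 1) → Bool),
      ∀ i, v (τ i) = if ε i then c i else c' i := by
    intro v hv
    rw [Matrix.det_apply] at hv
    obtain ⟨τ, -, hτ⟩ := Finset.exists_ne_zero_of_sum_ne_zero hv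
    have h1 : ∀ i, M v (τ i) i ≠ 0 := by
      intro i hi
      apply hτ
      have hp : ∏ i, M v (τ i) i = 0 := Finset.prod_eq_zero (Finset.mem_univ i) hi
      rw [hp, smul_zero]
    refine ⟨τ, fun i => decide (v (τ i) = c i), fun i => ?_⟩
    have h2 := h1 i
    rw [hM] at h2
    unfold row at h2
    by_cases h3 : v (τ i) = c i
    · simp [h3]
    · rw [if_neg h3] at h2
      by_cases h4 : v (τ i) = c' i
      · have h5 := hcc0 i i
        simp [h4, h5]
      · rw [if_neg h4] at h2
        exact absurd rfl h2
  have htr : ∀ (ε : Fin (q + 1) → Bool),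
      Function.Injective fun i => if ε i then c i else c' i := by
    intro ε i j hij
    simp only at hij
    split_ifs at hij with h1 h2 h2
    · exact hc0 hij
    · exact absurd hij.symm (hcc0 _ _)
    · exact absurd hij (hcc0 _ _)
    · exact hc' hij
  refine ⟨fun v => (M v).det, ⟨?_, ?_, ?_⟩, ?_, ?_⟩
  · intro v hv
    obtain ⟨τ, ε, h⟩ := htrans v hv
    have h1 : Finset.univ.image v = Finset.univ.image fun i => if ε i then c i else c' i := by
      ext x
      simp only [Finset.mem_image, Finset.mem_univ, true_and]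
      constructor
      · rintro ⟨j, rfl⟩
        exact ⟨τ.symm j, by rw [← h]; simp⟩
      · rintro ⟨i, rfl⟩
        exact ⟨τ i, h i⟩
    rw [h1]
    exact hK ε
  · intro v hv
    obtain ⟨τ, ε, h⟩ := htrans v hv
    intro a b hab
    have h1 := htr ε (a₁ := τ.symm a) (a₂ := τ.symm b) (by
      show (if ε (τ.symm a) then c (τ.symm a) else c' (τ.symm a)) =
        if ε (τ.symm b) then c (τ.symm b) else c' (τ.symm b)
      rw [← h, ← h]
      simpa using hab)
    exact τ.symm.injective h1
  · intro v σ
    have h1 : M (v ∘ σ) = (M v).submatrix σ id := rfl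
    show (M (v ∘ σ)).det = _
    rw [h1, Matrix.det_permute, Int.cast_id]
  · funext v
    show ∑ x, (M (Fin.cons x v)).det = 0
    have h1 : ∀ x, M (Fin.cons x v) = (M (Fin.cons (c 0) v)).updateRow 0
        (fun i => row (c i) (c' i) x) := by
      intro x
      ext j i
      refine Fin.cases ?_ (fun j => ?_) j
      · rw [Matrix.updateRow_self, hM, Fin.cons_zero]
      · rw [Matrix.updateRow_ne (Fin.succ_ne_zero j), hM, hM, Fin.cons_succ, Fin.cons_succ]
    have h2 : ∑ x, (M (Fin.cons x v)).det =
        ((M (Fin.cons (c 0) v)).updateRow 0 (∑ x, fun i => row (c i) (c' i) x)).det := by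
      rw [Finset.sum_congr rfl fun x _ => by rw [h1 x]]
      exact ((Matrix.detRowAlternating (n := Fin (q + 1)) (R := ℤ)).toMultilinearMap.map_update_sum
        Finset.univ 0 (fun (x : V) (i : Fin (q + 1)) => row (c i) (c' i) x)
        (M (Fin.cons (c 0) v))).symm
    rw [h2]
    have h3 : (∑ x, fun i => row (c i) (c' i) x : Fin (q + 1) → ℤ) = 0 := by
      funext i
      rw [Finset.sum_apply]
      unfold row
      rw [Finset.sum_sub_distrib]
      simp
    rw [h3]
    refine Matrix.det_eq_zero_of_row_eq_zero 0 fun i => ?_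
    rw [Matrix.updateRow_self]
    rfl
  · intro w hw h
    have h2 : (M c).det = 1 := by
      have : M c = 1 := by
        ext j i
        rw [hM, Matrix.one_apply]
        unfold row
        rw [if_neg (Ne.symm (hcc0 i j)), sub_zero]
        by_cases hij : j = i
        · rw [if_pos hij, if_pos (by rw [hij])]
        · rw [if_neg hij, if_neg fun h => hij (hc0 h)]
      rw [this, Matrix.det_one]
    -- the sum of the coefficients over the fibre of `g ∘ c`
    let Fib : Finset (Fin (q + 1) → V) := Finset.univ.filter fun u => ∀ i, g (u i) = g (c i)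
    have hsum1 : ∑ u ∈ Fib, (M u).det = 1 := by
      rw [Finset.sum_eq_single c, h2]
      · intro u hu hne
        by_contra hdet
        obtain ⟨τ, ε, hτ⟩ := htrans u hdet
        apply hne
        funext j
        have h3 := (Finset.mem_filter.1 hu).2 j
        have h4 := hτ (τ.symm j)
        rw [Equiv.apply_symm_apply] at h4
        by_cases hε : ε (τ.symm j)
        · rw [if_pos hε] at h4
          rw [h4] at h3
          have h5 := hc h3
          rw [h4, h5]
        · rw [if_neg hε] at h4
          rw [h4] at h3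
          exact absurd h3 (hcc _ _)
      · intro h
        exact absurd (Finset.mem_filter.2 ⟨Finset.mem_univ _, fun _ => rfl⟩) h
    have hsum0 : ∑ u ∈ Fib, boundary w u = 0 := by
      unfold boundary
      rw [Finset.sum_comm]
      -- split by the value of `g x`
      have h3 : ∀ x : V, ∑ u ∈ Fib, w (Fin.cons x u) =
          ∑ i, if g x = g (c i) then ∑ u ∈ Fib, w (Fin.cons x u) else 0 := by
        intro x
        by_cases hx : ∃ i, g x = g (c i)
        · obtain ⟨i, hi⟩ := hx
          rw [Finset.sum_eq_single i, if_pos hi]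
          · intro j _ hj
            rw [if_neg]
            intro h
            exact hj (hc (h.symm.trans hi))
          · intro h; exact absurd (Finset.mem_univ _) h
        · rw [Finset.sum_eq_zero, Finset.sum_eq_zero]
          · intro i _
            rw [if_neg fun h => hx ⟨i, h⟩]
          · intro u hu
            by_contra hne
            have h4 := hw.support _ hne
            have h5 := hmax _ h4 (fun i => ⟨u i, ?_, (Finset.mem_filter.1 hu).2 i⟩) x ?_
            · exact hx h5
            · exact Finset.mem_image.2 ⟨i.succ, Finset.mem_univ _, by simp⟩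
            · exact Finset.mem_image.2 ⟨0, Finset.mem_univ _, by simp⟩
      rw [Finset.sum_congr rfl fun x _ => h3 x, Finset.sum_comm]
      refine Finset.sum_eq_zero fun i _ => ?_
      rw [← Finset.sum_filter, ← Finset.sum_product']
      refine Finset.sum_involution (fun p _ => (p.2 i, Function.update p.2 i p.1)) ?_ ?_ ?_ ?_
      · rintro ⟨x, u⟩ hp
        have h5 := hw.alternating (Fin.cons x u) (Equiv.swap 0 i.succ)
        rw [cons_comp_swap, Equiv.Perm.sign_swap (Fin.succ_ne_zero i).symm] at h5
        simp only at h5 ⊢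
        rw [h5]
        simp
      · rintro ⟨x, u⟩ hp hne heq
        simp only [Prod.mk.injEq] at heq
        have h5 := hw.distinct _ hne (a₁ := 0) (a₂ := i.succ) (by simpa using heq.1.symm)
        exact Fin.succ_ne_zero _ h5.symm
      · rintro ⟨x, u⟩ hp
        rw [Finset.mem_product, Finset.mem_filter, Finset.mem_filter] at hp ⊢
        obtain ⟨⟨_, h5⟩, ⟨_, h6⟩⟩ := hp
        refine ⟨⟨Finset.mem_univ _, h6 i⟩, ⟨Finset.mem_univ _, fun j => ?_⟩⟩
        by_cases hj : j = i
        · subst hj
          simpa using h5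
        · simpa [Function.update_of_ne hj] using h6 j
      · rintro ⟨x, u⟩ hp
        simp
    rw [h] at hsum0
    rw [hsum0] at hsum1
    exact zero_ne_one hsum1

end criterion

/-- Nonempty faces of the Vietoris-Rips complex at scale `r` of the set of vertices of the cube
`{0,1}^n` with exactly `l` entries `true`. -/
def SliceFace (n l r : ℕ) (σ : Finset (Fin n → Bool)) : Prop :=
  σ.Nonempty ∧ (∀ x ∈ σ, (Finset.univ.filter fun i => x i = true).card = l) ∧
    ∀ x ∈ σ, ∀ y ∈ σ, hammingDist x y ≤ r

theorem dist_slice {n : ℕ} {x y : Fin n → Bool} (h : (ones' x).card = (ones' y).card) :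
    hammingDist x y = 2 * (ones' x \ ones' y).card := by
  rw [hammingDist_eq]
  have h1 : (symmDiff (ones' x) (ones' y)).card =
      (ones' x \ ones' y).card + (ones' y \ ones' x).card := by
    rw [symmDiff_def, Finset.sup_eq_union, Finset.card_union_of_disjoint disjoint_sdiff_sdiff]
  have h2 := Finset.card_sdiff_add_card_inter (ones' x) (ones' y)
  have h3 := Finset.card_sdiff_add_card_inter (ones' y) (ones' x)
  rw [Finset.inter_comm] at h3
  omega

theorem choose_half (s : ℕ) : (2 * (s + 1)).choose (s + 1) = 2 * (2 * s + 1).choose (s + 1) := by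
  have h1 : 2 * (s + 1) = (2 * s + 1) + 1 := by ring
  rw [h1, Nat.choose_succ_succ, Nat.choose_symm_half]
  ring

/-- The homology of the Vietoris-Rips complex of a slice vanishes from degree
`(2s+1 choose s+1)` on, `s = ⌊r/2⌋`. -/
theorem vanish_slice (n l r q : ℕ) (hq : (2 * (r / 2) + 1).choose (r / 2 + 1) ≤ q) :
    ¬ HomologyNonzero (SliceFace n l r) q := by
  classical
  set s := r / 2 with hs
  have hpos : 1 ≤ (2 * s + 1).choose (s + 1) := Nat.choose_pos (by omega)
  have h := not_homologyNonzero_of_chain (fun x y : Fin n → Bool => hammingDist x y ≤ r)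
    (fun x => by rw [hammingDist_self]; exact Nat.zero_le r)
    (fun x y h => by rwa [hammingDist_comm])
    (Finset.univ.filter fun x : Fin n → Bool => (ones' x).card = l) _ hpos ?_ hq
  · intro hcon
    apply h
    have : (fun σ : Finset (Fin n → Bool) => σ.Nonempty ∧
        σ ⊆ (Finset.univ.filter fun x : Fin n → Bool => (ones' x).card = l) ∧
        ∀ x ∈ σ, ∀ y ∈ σ, hammingDist x y ≤ r) = SliceFace n l r := by
      funext σ
      unfold SliceFace ones'
      apply propext
      simp only [Finset.subset_iff, Finset.mem_filter, Finset.mem_univ, true_and]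
    rw [this]
    exact hcon
  · intro Z hZ1 hZ2
    have hcardZ : ∀ p ∈ Z, (ones' p.1).card = l ∧ (ones' p.2).card = l := fun p hp =>
      ⟨(Finset.mem_filter.1 (hZ1 p hp).1).2, (Finset.mem_filter.1 (hZ1 p hp).2.1).2⟩
    have hfar : ∀ p ∈ Z, s + 1 ≤ (ones' p.1 \ ones' p.2).card := by
      intro p hp
      have h1 := (hZ1 p hp).2.2
      rw [dist_slice ((hcardZ p hp).1.trans (hcardZ p hp).2.symm)] at h1
      omega
    rcases Nat.lt_or_ge l (s + 1) with hl | hl
    · have hZ0 : Z = [] := by
        rw [List.eq_nil_iff_forall_not_mem]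
        intro p hp
        have h1 := hfar p hp
        have h2 := Finset.card_le_card (Finset.sdiff_subset : ones' p.1 \ ones' p.2 ⊆ ones' p.1)
        rw [(hcardZ p hp).1] at h2
        omega
      rw [hZ0, List.length_nil]
      exact Nat.zero_le _
    · obtain ⟨t, rfl⟩ : ∃ t, l = s + 1 + t := ⟨l - (s + 1), by omega⟩
      have h1 := Q181.Threshold.chain_length_le (s := s) (t := t)
        (Z.map fun p => (ones' p.1, ones' p.2)) (by
          intro p hp
          rw [List.mem_map] at hp
          obtain ⟨q, hq, rfl⟩ := hp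
          exact hcardZ q hq) (by
          intro p hp
          rw [List.mem_map] at hp
          obtain ⟨q, hq, rfl⟩ := hp
          exact hfar q hq) (by
          rw [List.pairwise_map, List.pairwise_iff_getElem]
          rw [List.pairwise_iff_getElem] at hZ2
          intro i j hi hj hij
          have h2 := hZ2 i j hi hj hij
          have h3 := hcardZ _ (List.getElem_mem hi)
          have h4 := hcardZ _ (List.getElem_mem hj)
          rw [dist_slice (h3.1.trans h4.1.symm), dist_slice (h3.1.trans h4.2.symm)] at h2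
          dsimp only
          omega)
      rw [List.length_map, choose_half] at h1
      omega

/-- Initial segments. -/
theorem exists_initial {n : ℕ} (A : Finset (Fin n)) : ∀ m : ℕ, m ≤ A.card →
    ∃ S ⊆ A, S.card = m ∧ ∀ a ∈ A, ∀ b ∈ S, a ≤ b → a ∈ S := by
  intro m
  induction m with
  | zero => exact fun _ => ⟨∅, Finset.empty_subset _, rfl, fun a _ b hb => absurd hb (by simp)⟩
  | succ m ih =>
    intro hm
    obtain ⟨S, hSA, hSc, hS⟩ := ih (by omega)
    have hne : (A \ S).Nonempty := by
      rw [← Finset.card_pos, Finset.card_sdiff_of_subset hSA]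
      omega
    have h1 := (A \ S).min'_mem hne
    set a₀ := (A \ S).min' hne with ha₀
    rw [Finset.mem_sdiff] at h1
    refine ⟨insert a₀ S, Finset.insert_subset h1.1 hSA, ?_, ?_⟩
    · rw [Finset.card_insert_of_notMem h1.2, hSc]
    · intro a ha b hb hab
      rw [Finset.mem_insert] at hb ⊢
      by_cases haS : a ∈ S
      · exact Or.inr haS
      · rcases hb with rfl | hb
        · left
          exact le_antisymm hab (Finset.min'_le _ _ (Finset.mem_sdiff.2 ⟨ha, haS⟩))
        · exact Or.inr (hS a ha b hb hab)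

open Classical in
/-- The `m` smallest elements. -/
noncomputable def init {n : ℕ} (m : ℕ) (A : Finset (Fin n)) : Finset (Fin n) :=
  if h : m ≤ A.card then (exists_initial A m h).choose else ∅

theorem init_spec {n m : ℕ} {A : Finset (Fin n)} (h : m ≤ A.card) :
    init m A ⊆ A ∧ (init m A).card = m ∧ ∀ a ∈ A, ∀ b ∈ init m A, a ≤ b → a ∈ init m A := by
  rw [init, dif_pos h]
  exact (exists_initial A m h).choose_spec

theorem init_unique {n m : ℕ} {A S : Finset (Fin n)} (hSA : S ⊆ A) (hSc : S.card = m)
    (hS : ∀ a ∈ A, ∀ b ∈ S, a ≤ b → a ∈ S) : init m A = S := by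
  obtain ⟨h1, h2, h3⟩ := init_spec (m := m) (A := A) (by
    rw [← hSc]; exact Finset.card_le_card hSA)
  by_cases h : S ⊆ init m A
  · exact (Finset.eq_of_subset_of_card_le h (by omega)).symm
  · rw [Finset.not_subset] at h
    obtain ⟨a, haS, ha⟩ := h
    apply Finset.eq_of_subset_of_card_le _ (by omega)
    intro b hb
    rcases le_total b a with hba | hab
    · exact hS b (h1 hb) a haS hba
    · exact absurd (h3 a (hSA haS) b hb hab) ha

theorem init_lipschitz {n m : ℕ} {A B : Finset (Fin n)} (hAB : A.card = B.card)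
    (hm : m ≤ A.card) : (init m A \ init m B).card ≤ (A \ B).card := by
  obtain ⟨a1, a2, a3⟩ := init_spec hm
  obtain ⟨b1, b2, b3⟩ := init_spec (A := B) (m := m) (by omega)
  by_cases h : init m A \ init m B ⊆ A \ B
  · exact Finset.card_le_card h
  · have h' : init m B \ init m A ⊆ B \ A := by
      rw [Finset.not_subset] at h
      obtain ⟨a, ha, ha'⟩ := h
      rw [Finset.mem_sdiff] at ha ha'
      push Not at ha'
      have haB := ha' (a1 ha.1)
      intro b hb
      rw [Finset.mem_sdiff] at hb ⊢
      refine ⟨b1 hb.1, fun hbA => hb.2 ?_⟩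
      rcases le_total b a with hba | hab
      · exact a3 b hbA a ha.1 hba
      · exact absurd (b3 a haB b hb.1 hab) ha.2
    have h1 := Finset.card_le_card h'
    have h2 := Finset.card_sdiff_add_card_inter (init m A) (init m B)
    have h3 := Finset.card_sdiff_add_card_inter (init m B) (init m A)
    have h4 := Finset.card_sdiff_add_card_inter A B
    have h5 := Finset.card_sdiff_add_card_inter B A
    rw [Finset.inter_comm] at h3 h5
    omega

/-- The vertex with a given set of entries `true`. -/
def ind {n : ℕ} (A : Finset (Fin n)) : Fin n → Bool := fun i => decide (i ∈ A)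

theorem ones'_ind {n : ℕ} (A : Finset (Fin n)) : ones' (ind A) = A := by
  ext i
  simp [ones', ind]

/-- The top homology of a slice. -/
theorem top_slice (n l r : ℕ) (hl : r / 2 + 1 ≤ l) (hn : l + (r / 2 + 1) ≤ n) :
    HomologyNonzero (SliceFace n l r) ((2 * (r / 2) + 1).choose (r / 2 + 1) - 1) := by
  classical
  set s := r / 2 with hs
  have hpos : 1 ≤ (2 * s + 1).choose (s + 1) := Nat.choose_pos (by omega)
  obtain ⟨q, hq⟩ : ∃ q, (2 * s + 1).choose (s + 1) = q + 1 :=
    ⟨(2 * s + 1).choose (s + 1) - 1, by omega⟩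
  rw [hq, Nat.add_sub_cancel]
  have hcard : Fintype.card {S : Finset (Fin (2 * s + 1)) // S.card = s + 1} = q + 1 := by
    rw [Fintype.card_finset_len, Fintype.card_fin, hq]
  let e : Fin (q + 1) ≃ {S : Finset (Fin (2 * s + 1)) // S.card = s + 1} :=
    (Fintype.equivFinOfCardEq hcard).symm
  let emb : Fin (2 * s + 1) ↪ Fin n := ⟨fun i => ⟨i + 1, by omega⟩, fun i j h => by
    have := congrArg (fun x : Fin n => (x : ℕ)) h
    simp only at this
    exact Fin.ext (by omega)⟩
  let embF : Fin (l - (s + 1)) ↪ Fin n := ⟨fun i => ⟨2 * s + 2 + i, by omega⟩, fun i j h => by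
    have := congrArg (fun x : Fin n => (x : ℕ)) h
    simp only at this
    exact Fin.ext (by omega)⟩
  let z₀ : Fin n := ⟨0, by omega⟩
  let B : Finset (Fin n) := Finset.univ.map emb
  let F : Finset (Fin n) := Finset.univ.map embF
  let T : Fin (q + 1) → Finset (Fin n) := fun j => (e j).1.map emb
  let T' : Fin (q + 1) → Finset (Fin n) := fun j => insert z₀ (B \ T j)
  have hBlt : ∀ x ∈ B, 1 ≤ (x : ℕ) ∧ (x : ℕ) < 2 * s + 2 := by
    intro x hx
    obtain ⟨i, -, rfl⟩ := Finset.mem_map.1 hx
    have := i.2
    show 1 ≤ (i : ℕ) + 1 ∧ (i : ℕ) + 1 < 2 * s + 2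
    omega
  have hFge : ∀ x ∈ F, 2 * s + 2 ≤ (x : ℕ) := by
    intro x hx
    obtain ⟨i, -, rfl⟩ := Finset.mem_map.1 hx
    show 2 * s + 2 ≤ 2 * s + 2 + (i : ℕ)
    omega
  have hBc : B.card = 2 * s + 1 := by
    rw [Finset.card_map, Finset.card_univ, Fintype.card_fin]
  have hFc : F.card = l - (s + 1) := by
    rw [Finset.card_map, Finset.card_univ, Fintype.card_fin]
  have hTB : ∀ j, T j ⊆ B := fun j => Finset.map_subset_map.2 (Finset.subset_univ _)
  have hTc : ∀ j, (T j).card = s + 1 := fun j => by rw [Finset.card_map]; exact (e j).2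
  have hz₀B : z₀ ∉ B := fun h => by
    have h1 := (hBlt _ h).1
    have h2 : (z₀ : ℕ) = 0 := rfl
    omega
  have hT'c : ∀ j, (T' j).card = s + 1 := by
    intro j
    rw [Finset.card_insert_of_notMem (fun h => hz₀B (Finset.sdiff_subset h)),
      Finset.card_sdiff_of_subset (hTB j), hBc, hTc]
    omega
  have hTlt : ∀ j, ∀ x ∈ T j, (x : ℕ) < 2 * s + 2 := fun j x hx => (hBlt x (hTB j hx)).2
  have hT'lt : ∀ j, ∀ x ∈ T' j, (x : ℕ) < 2 * s + 2 := by
    intro j x hx
    rcases Finset.mem_insert.1 hx with rfl | hx
    · show 0 < 2 * s + 2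
      omega
    · exact (hBlt x (Finset.sdiff_subset hx)).2
  -- general facts on `P ∪ F`
  have hPF : ∀ P : Finset (Fin n), (∀ x ∈ P, (x : ℕ) < 2 * s + 2) → P.card = s + 1 →
      (P ∪ F).card = l ∧ init (s + 1) (P ∪ F) = P := by
    intro P hP hPc
    have hdis : Disjoint P F := Finset.disjoint_left.2 fun x hx hx' => by
      have h1 := hP x hx
      have h2 := hFge x hx'
      omega
    refine ⟨by rw [Finset.card_union_of_disjoint hdis, hPc, hFc]; omega, ?_⟩
    refine init_unique Finset.subset_union_left hPc ?_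
    intro a ha b hb hab
    rcases Finset.mem_union.1 ha with h | h
    · exact h
    · have h1 := hFge a h
      have h2 := hP b hb
      have h3 : (a : ℕ) ≤ b := hab
      omega
  have hdistP : ∀ P Q : Finset (Fin n), (∀ x ∈ P, (x : ℕ) < 2 * s + 2) → P.card = s + 1 →
      (∀ x ∈ Q, (x : ℕ) < 2 * s + 2) → Q.card = s + 1 → (P ∩ Q).Nonempty →
      hammingDist (ind (P ∪ F)) (ind (Q ∪ F)) ≤ r := by
    intro P Q hP hPc hQ hQc hne
    rw [dist_slice (by rw [ones'_ind, ones'_ind, (hPF P hP hPc).1, (hPF Q hQ hQc).1]),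
      ones'_ind, ones'_ind]
    have h1 : (P ∪ F) \ (Q ∪ F) ⊆ P \ Q := by
      intro x hx
      rw [Finset.mem_sdiff, Finset.mem_union, Finset.mem_union] at hx
      rw [Finset.mem_sdiff]
      push Not at hx
      exact ⟨hx.1.resolve_right hx.2.2, hx.2.1⟩
    have h2 := Finset.card_le_card h1
    have h3 := Finset.card_sdiff_add_card_inter P Q
    have h4 := hne.card_pos
    omega
  have hgT : ∀ j, init (s + 1) (ones' (ind (T j ∪ F))) = T j := fun j => by
    rw [ones'_ind]; exact (hPF _ (hTlt j) (hTc j)).2
  have hgT' : ∀ j, init (s + 1) (ones' (ind (T' j ∪ F))) = T' j := fun j => by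
    rw [ones'_ind]; exact (hPF _ (hT'lt j) (hT'c j)).2
  have hTinj : Function.Injective T := by
    intro i j h
    exact e.injective (Subtype.ext (Finset.map_injective emb h))
  have hsurj : ∀ S : Finset (Fin n), S ⊆ B → S.card = s + 1 → ∃ i, S = T i := by
    intro S hSB hSc
    let S' : Finset (Fin (2 * s + 1)) := Finset.univ.filter fun i => emb i ∈ S
    have hS' : S'.map emb = S := by
      ext x
      simp only [Finset.mem_map, S', Finset.mem_filter, Finset.mem_univ, true_and]
      constructor
      · rintro ⟨i, hi, rfl⟩; exact hi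
      · intro hx
        obtain ⟨i, -, rfl⟩ := Finset.mem_map.1 (hSB hx)
        exact ⟨i, hx, rfl⟩
    have hS'c : S'.card = s + 1 := by rw [← hSc, ← hS', Finset.card_map]
    refine ⟨e.symm ⟨S', hS'c⟩, ?_⟩
    show S = (e (e.symm ⟨S', hS'c⟩)).1.map emb
    rw [Equiv.apply_symm_apply, hS']
  have hmeet : ∀ i j, (T i ∩ T j).Nonempty := by
    intro i j
    rw [Finset.nonempty_iff_ne_empty]
    intro h
    have h1 := Finset.card_union_of_disjoint (Finset.disjoint_iff_inter_eq_empty.2 h)
    have h2 := Finset.card_le_card (Finset.union_subset (hTB i) (hTB j))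
    rw [h1, hTc, hTc, hBc] at h2
    omega
  have hmeet' : ∀ i j, i ≠ j → (T i ∩ T' j).Nonempty := by
    intro i j hij
    have h1 : ¬ T i ⊆ T j := fun h =>
      hij (hTinj (Finset.eq_of_subset_of_card_le h (by rw [hTc, hTc])))
    rw [Finset.not_subset] at h1
    obtain ⟨x, hx, hx'⟩ := h1
    exact ⟨x, Finset.mem_inter.2 ⟨hx, Finset.mem_insert_of_mem
      (Finset.mem_sdiff.2 ⟨hTB i hx, hx'⟩)⟩⟩
  refine nontrivial_of_map (SliceFace n l r) (fun x => init (s + 1) (ones' x))
    (fun j => ind (T j ∪ F)) (fun j => ind (T' j ∪ F)) ?_ ?_ ?_ ?_ ?_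
  · intro i j h
    simp only [hgT] at h
    exact hTinj h
  · intro i j h
    simp only [hgT, hgT'] at h
    have h1 : z₀ ∈ T j := h ▸ Finset.mem_insert_self _ _
    exact hz₀B (hTB j h1)
  · intro i j h
    have h1 := congrArg (fun x => init (s + 1) (ones' x)) h
    simp only [hgT'] at h1
    apply hTinj
    have h2 : ∀ k, T k = B \ T' k := by
      intro k
      ext x
      simp only [T', Finset.mem_sdiff, Finset.mem_insert]
      constructor
      · intro hx
        refine ⟨hTB k hx, ?_⟩
        rintro (rfl | h)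
        · exact hz₀B (hTB k hx)
        · exact h.2 hx
      · rintro ⟨h3, h4⟩
        by_contra hx
        exact h4 (Or.inr ⟨h3, hx⟩)
    rw [h2, h2, h1]
  · intro ε
    refine ⟨⟨_, Finset.mem_image_of_mem _ (Finset.mem_univ 0)⟩, ?_, ?_⟩
    · intro x hx
      obtain ⟨j, -, rfl⟩ := Finset.mem_image.1 hx
      split_ifs
      · show (ones' (ind (T j ∪ F))).card = l
        rw [ones'_ind]; exact (hPF _ (hTlt j) (hTc j)).1
      · show (ones' (ind (T' j ∪ F))).card = l
        rw [ones'_ind]; exact (hPF _ (hT'lt j) (hT'c j)).1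
    · intro x hx y hy
      obtain ⟨j, -, rfl⟩ := Finset.mem_image.1 hx
      obtain ⟨k, -, rfl⟩ := Finset.mem_image.1 hy
      by_cases hjk : j = k
      · subst hjk
        rw [hammingDist_self]
        exact Nat.zero_le r
      · split_ifs
        · exact hdistP _ _ (hTlt j) (hTc j) (hTlt k) (hTc k) (hmeet j k)
        · exact hdistP _ _ (hTlt j) (hTc j) (hT'lt k) (hT'c k) (hmeet' j k hjk)
        · rw [hammingDist_comm]
          exact hdistP _ _ (hTlt k) (hTc k) (hT'lt j) (hT'c j) (hmeet' k j (Ne.symm hjk))
        · exact hdistP _ _ (hT'lt j) (hT'c j) (hT'lt k) (hT'c k)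
            ⟨z₀, Finset.mem_inter.2 ⟨Finset.mem_insert_self _ _, Finset.mem_insert_self _ _⟩⟩
  · intro σ hσ hσc x hx
    have hones : ∀ y ∈ σ, (ones' y).card = l := hσ.2.1
    set S := init (s + 1) (ones' x) with hS
    have hSc : S.card = s + 1 := (init_spec (by rw [hones x hx]; exact hl)).2.1
    have hmeetS : ∀ i, (T i ∩ S).Nonempty := by
      intro i
      obtain ⟨y, hy, hgy⟩ := hσc i
      rw [hgT] at hgy
      have h1 := hσ.2.2 y hy x hx
      rw [dist_slice ((hones y hy).trans (hones x hx).symm)] at h1
      have h2 := init_lipschitz (m := s + 1) ((hones y hy).trans (hones x hx).symm)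
        (by rw [hones y hy]; exact hl)
      rw [hgy, ← hS] at h2
      have h3 := Finset.card_sdiff_add_card_inter (T i) S
      rw [hTc] at h3
      rw [← Finset.card_pos]
      omega
    have hBS : (B \ S).card ≤ s := by
      by_contra hcon
      obtain ⟨W, hW, hWc⟩ := Finset.exists_subset_card_eq (show s + 1 ≤ (B \ S).card by omega)
      obtain ⟨i, rfl⟩ := hsurj W (hW.trans Finset.sdiff_subset) hWc
      obtain ⟨y, hy⟩ := hmeetS i
      rw [Finset.mem_inter] at hy
      exact (Finset.mem_sdiff.1 (hW hy.1)).2 hy.2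
    have h1 := Finset.card_sdiff_add_card_inter B S
    have h2 : B ∩ S = S := Finset.eq_of_subset_of_card_le Finset.inter_subset_right (by omega)
    obtain ⟨i, hi⟩ := hsurj S (by rw [← h2]; exact Finset.inter_subset_left) hSc
    exact ⟨i, by rw [hgT]; exact hi⟩

end Q181.Cube
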