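import Mathlib

/-!
# A skew set-pair inequality with a threshold

If `x_1, …, x_m` and `y_1, …, y_m` are `ℓ`-element sets with `|x_l \ y_l| ≥ s` for all `l` and
`|x_j \ y_l| < s` for all `j < l`, then `m ≤ (2s choose s)` (Füredi's threshold version of the
skew Bollobás theorem, in the form needed here).
-/

open MvPolynomial

set_option autoImplicit false

namespace Q181.Threshold

noncomputable section

variable {ι J : Type*} [DecidableEq ι] [Fintype J] [DecidableEq J] {K : Type*} [CommRing K]

/-- The linear form attached to `k`. -/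
def lf (c : ι → J → K) (k : ι) : MvPolynomial J K := ∑ j, C (c k j) * X j

/-- The exponent vector of the product of all variables. -/
def onesJ (J : Type*) [Fintype J] : J →₀ ℕ := Finsupp.equivFunOnFinite.symm fun _ => 1

@[simp] lemma onesJ_apply (i : J) : onesJ J i = 1 := rfl

/-- The coefficient of the product of all variables. -/
def topJ (P : MvPolynomial J K) : K := coeff (onesJ J) P

lemma topJ_add (P Q : MvPolynomial J K) : topJ (P + Q) = topJ P + topJ Q := coeff_add _ _ _

/-- The polynomials all of whose multiples have vanishing top coefficient. -/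
def nul (J : Type*) [Fintype J] [DecidableEq J] (K : Type*) [CommRing K] :
    Ideal (MvPolynomial J K) where
  carrier := {P | ∀ Q, topJ (P * Q) = 0}
  zero_mem' := fun Q => by rw [zero_mul]; exact coeff_zero _
  add_mem' := fun {P P'} hP hP' Q => by rw [add_mul, topJ_add, hP, hP', add_zero]
  smul_mem' := fun c P hP Q => by
    rw [smul_eq_mul, mul_comm c P, mul_assoc]
    exact hP _

lemma mem_nul {P : MvPolynomial J K} : P ∈ nul J K ↔ ∀ Q, topJ (P * Q) = 0 := Iff.rfl

lemma topJ_of_mem {P : MvPolynomial J K} (h : P ∈ nul J K) : topJ P = 0 := by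
  have := mem_nul.1 h 1
  rwa [mul_one] at this

lemma X_sq_mem (j : J) : (X j : MvPolynomial J K) ^ 2 ∈ nul J K := by
  intro Q
  have h : (X j : MvPolynomial J K) ^ 2 = monomial (Finsupp.single j 2) 1 := by
    rw [X_pow_eq_monomial]
  rw [h, topJ, mul_comm, coeff_mul_monomial', if_neg]
  intro h
  have := h j
  rw [Finsupp.single_eq_same, onesJ_apply] at this
  omega

lemma lf_sq_mem [CharP K 2] (c : ι → J → K) (k : ι) : lf c k ^ 2 ∈ nul J K := by
  haveI : CharP (MvPolynomial J K) 2 := inferInstance
  rw [lf, sum_pow_char 2]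
  refine Ideal.sum_mem _ fun j _ => ?_
  rw [mul_pow]
  exact Ideal.mul_mem_left _ _ (X_sq_mem j)

/-- More factors than square-zero generators. -/
lemma prod_mem {T : Type*} [Fintype T] [DecidableEq T] (V : T → MvPolynomial J K)
    (hV : ∀ w, V w ^ 2 ∈ nul J K) (d : ι → T → K) (S : Finset ι) (hS : Fintype.card T < S.card) :
    ∏ k ∈ S, ∑ w, C (d k w) * V w ∈ nul J K := by
  rw [Finset.prod_sum]
  refine Ideal.sum_mem _ fun p _ => ?_
  have h1 : (Finset.univ : Finset T).card < S.attach.card := by
    rwa [Finset.card_univ, Finset.card_attach]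
  obtain ⟨x, hx, y, hy, hxy, hpxy⟩ := Finset.exists_ne_map_eq_of_card_lt_of_maps_to h1
    (f := fun x : {x // x ∈ S} => p x.1 x.2) fun _ _ => Finset.mem_univ _
  rw [← Finset.mul_prod_erase S.attach _ hx,
    ← Finset.mul_prod_erase (S.attach.erase x) _ (Finset.mem_erase.2 ⟨hxy.symm, hy⟩), ← mul_assoc]
  apply Ideal.mul_mem_right
  rw [← hpxy]
  have h2 : C (d x.1 (p x.1 x.2)) * V (p x.1 x.2) * (C (d y.1 (p x.1 x.2)) * V (p x.1 x.2)) =
      C (d x.1 (p x.1 x.2)) * C (d y.1 (p x.1 x.2)) * V (p x.1 x.2) ^ 2 := by ring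
  rw [h2]
  exact Ideal.mul_mem_left _ _ (hV _)

/-- Coefficients of products of linear forms not involving the variable `j₀`. -/
lemma coeff_prod_eq_zero (c : ι → J → K) (j₀ : J) (hc : ∀ k, c k j₀ = 0) (S : Finset ι) :
    ∀ a : J →₀ ℕ, a j₀ ≠ 0 → coeff a (∏ k ∈ S, lf c k) = 0 := by
  induction S using Finset.induction_on with
  | empty =>
    intro a ha
    rw [Finset.prod_empty, coeff_one, if_neg]
    rintro rfl
    exact ha rfl
  | insert k S hk ih =>
    intro a ha
    rw [Finset.prod_insert hk, lf, Finset.sum_mul, coeff_sum]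
    refine Finset.sum_eq_zero fun j _ => ?_
    rw [mul_assoc, coeff_C_mul]
    by_cases hj : j = j₀
    · rw [hj, hc, zero_mul]
    · rw [mul_comm (X j), coeff_mul_X']
      split_ifs with h
      · rw [ih, mul_zero]
        rw [Finsupp.tsub_apply, Finsupp.single_eq_of_ne (fun h => hj h.symm), Nat.sub_zero]
        exact ha
      · rw [mul_zero]

lemma coeff_prod_degree (c : ι → J → K) (S : Finset ι) (a : J →₀ ℕ) (ha : a.degree ≠ S.card) :
    coeff a (∏ k ∈ S, lf c k) = 0 := by
  have h1 : IsHomogeneous (∏ k ∈ S, lf c k) (∑ k ∈ S, 1) := by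
    refine IsHomogeneous.prod _ _ _ fun k _ => ?_
    exact IsHomogeneous.sum _ _ _ fun j _ => isHomogeneous_C_mul_X _ _
  apply h1.coeff_eq_zero
  simpa using ha

section pairs

variable {s t : ℕ}

/-- The variables. -/
abbrev Vars (s t : ℕ) : Type := (Fin s ⊕ Fin s) ⊕ (Fin t ⊕ Fin t)

/-- Coefficients for the first members. -/
def ca (d : ι → (Fin s ⊕ Fin s) ⊕ Fin t → K) (k : ι) : Vars s t → K
  | .inl x => d k (.inl x)
  | .inr (.inl w) => d k (.inr w)
  | .inr (.inr _) => 0

/-- Coefficients for the second members. -/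
def cb (d : ι → (Fin s ⊕ Fin s) ⊕ Fin t → K) (k : ι) : Vars s t → K
  | .inl x => d k (.inl x)
  | .inr (.inl _) => 0
  | .inr (.inr w) => d k (.inr w)

lemma lf_ca (d : ι → (Fin s ⊕ Fin s) ⊕ Fin t → K) (k : ι) :
    lf (ca d) k = ∑ x, C (d k (.inl x)) * X (.inl x) + ∑ w, C (d k (.inr w)) * X (.inr (.inl w)) := by
  rw [lf, Fintype.sum_sum_type, Fintype.sum_sum_type (α₁ := Fin t)]
  simp only [ca, map_zero, zero_mul, Finset.sum_const_zero, add_zero]

lemma lf_cb (d : ι → (Fin s ⊕ Fin s) ⊕ Fin t → K) (k : ι) :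
    lf (cb d) k = ∑ x, C (d k (.inl x)) * X (.inl x) + ∑ w, C (d k (.inr w)) * X (.inr (.inr w)) := by
  rw [lf, Fintype.sum_sum_type, Fintype.sum_sum_type (α₁ := Fin t)]
  simp only [cb, map_zero, zero_mul, Finset.sum_const_zero, zero_add]

/-- The top coefficient of the product attached to a pair of sets. -/
def pair (d : ι → (Fin s ⊕ Fin s) ⊕ Fin t → K) (A B : Finset ι) : K :=
  topJ ((∏ k ∈ A, lf (ca d) k) * ∏ k ∈ B, lf (cb d) k)

lemma pair_eq_zero [CharP K 2] (d : ι → (Fin s ⊕ Fin s) ⊕ Fin t → K) (A B : Finset ι)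
    (h : t < (A ∩ B).card) : pair d A B = 0 := by
  haveI : CharP (MvPolynomial (Vars s t) K) 2 := inferInstance
  apply topJ_of_mem
  rw [← Finset.prod_sdiff (Finset.inter_subset_left : A ∩ B ⊆ A),
    ← Finset.prod_sdiff (Finset.inter_subset_right : A ∩ B ⊆ B)]
  have h1 : ∀ a b c e : MvPolynomial (Vars s t) K, a * b * (c * e) = a * c * (b * e) := by
    intro a b c e; ring
  rw [h1]
  apply Ideal.mul_mem_left
  rw [← Finset.prod_mul_distrib, ← Ideal.Quotient.eq_zero_iff_mem, map_prod]
  have h2 : ∀ k, Ideal.Quotient.mk (nul (Vars s t) K) (lf (ca d) k * lf (cb d) k) =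
      Ideal.Quotient.mk (nul (Vars s t) K) (lf (ca d) k * (lf (ca d) k + lf (cb d) k)) := by
    intro k
    rw [Ideal.Quotient.eq]
    have h3 : lf (ca d) k * lf (cb d) k - lf (ca d) k * (lf (ca d) k + lf (cb d) k) =
      -(lf (ca d) k ^ 2) := by ring
    rw [h3]
    exact (Ideal.neg_mem_iff _).2 (lf_sq_mem _ _)
  rw [Finset.prod_congr rfl fun k _ => h2 k, ← map_prod, Ideal.Quotient.eq_zero_iff_mem,
    Finset.prod_mul_distrib]
  apply Ideal.mul_mem_left
  have h4 : ∀ k, lf (ca d) k + lf (cb d) k = ∑ w : Fin t, C (d k (.inr w)) *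
      (X (.inr (.inl w)) + X (.inr (.inr w)) : MvPolynomial (Vars s t) K) := by
    intro k
    rw [lf_ca, lf_cb]
    simp only [mul_add, Finset.sum_add_distrib]
    rw [add_add_add_comm, CharTwo.add_self_eq_zero, zero_add]
  rw [Finset.prod_congr rfl fun k _ => h4 k]
  refine prod_mem _ (fun w => ?_) _ _ (by rwa [Fintype.card_fin])
  rw [CharTwo.add_sq]
  exact Ideal.add_mem _ (X_sq_mem _) (X_sq_mem _)

lemma topJ_map {L : Type*} [CommRing L] (f : K →+* L) (P : MvPolynomial J K) :
    topJ (map f P) = f (topJ P) := coeff_map _ _ _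

lemma map_prod_lf {L : Type*} [CommRing L] (f : K →+* L) (c : ι → J → K) (S : Finset ι) :
    map f (∏ k ∈ S, lf c k) = ∏ k ∈ S, lf (fun k j => f (c k j)) k := by
  rw [map_prod]
  refine Finset.prod_congr rfl fun k _ => ?_
  rw [lf, map_sum, lf]
  refine Finset.sum_congr rfl fun j _ => ?_
  rw [map_mul, map_C, map_X]

lemma pair_map {L : Type*} [CommRing L] (f : K →+* L) (d : ι → (Fin s ⊕ Fin s) ⊕ Fin t → K)
    (A B : Finset ι) : f (pair d A B) = pair (fun k j => f (d k j)) A B := by
  have h1 : (fun (k : ι) (j : Vars s t) => f (ca d k j)) = ca fun k j => f (d k j) := by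
    funext k j
    rcases j with j | j | j
    · rfl
    · rfl
    · exact map_zero f
  have h2 : (fun (k : ι) (j : Vars s t) => f (cb d k j)) = cb fun k j => f (d k j) := by
    funext k j
    rcases j with j | j | j
    · rfl
    · exact map_zero f
    · rfl
  rw [pair, ← topJ_map, map_mul, map_prod_lf, map_prod_lf, h1, h2]
  rfl

lemma topJ_prod_X : topJ (∏ j : J, X j : MvPolynomial J K) = 1 := by
  have : (∏ j : J, X j : MvPolynomial J K) = monomial (onesJ J) 1 := by
    rw [monomial_eq, Finsupp.prod_fintype _ _ (by simp)]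
    simp
  rw [this, topJ, coeff_monomial, if_pos rfl]

/-- A bijection from a set of size `s + t` extending an injection of a subset into the second
part. -/
lemma exists_equiv (A I : Finset ι) (hA : A.card = s + t) (g : {x // x ∈ I} → Fin t)
    (hg : Function.Injective g) :
    ∃ e : {x // x ∈ A} ≃ Fin s ⊕ Fin t, ∀ (k : ι) (hk : k ∈ A) (hI : k ∈ I),
      e ⟨k, hk⟩ = .inr (g ⟨k, hI⟩) := by
  have hcard : Fintype.card {x // x ∈ A} = Fintype.card (Fin s ⊕ Fin t) := by
    rw [Fintype.card_coe, hA, Fintype.card_sum, Fintype.card_fin, Fintype.card_fin]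
  let e₀ : {x // x ∈ A} ≃ Fin s ⊕ Fin t := Fintype.equivOfCardEq hcard
  obtain ⟨e, he⟩ := Finset.exists_equiv_extend_of_card_eq (α := {x // x ∈ A})
    (t := (Finset.univ : Finset (Fin s ⊕ Fin t))) (by rw [hcard, Finset.card_univ])
    (s := Finset.univ.filter fun x : {x // x ∈ A} => x.1 ∈ I)
    (f := fun x => if h : x.1 ∈ I then .inr (g ⟨x.1, h⟩) else e₀ x)
    (Finset.subset_univ _) (by
      intro x hx y hy hxy
      have hx' := (Finset.mem_filter.1 (Finset.mem_coe.1 hx)).2
      have hy' := (Finset.mem_filter.1 (Finset.mem_coe.1 hy)).2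
      simp only [dif_pos hx', dif_pos hy'] at hxy
      have h1 := hg (Sum.inr_injective hxy)
      have h2 : (x : ι) = y := by simpa using h1
      exact Subtype.ext h2)
  refine ⟨e.trans (Equiv.subtypeUnivEquiv fun x => Finset.mem_univ x), ?_⟩
  intro k hk hI
  have h1 := he ⟨k, hk⟩ (Finset.mem_filter.2 ⟨Finset.mem_univ _, hI⟩)
  simp only [dif_pos hI] at h1
  exact h1

/-- The variables used by the first members. -/
def mA : Fin s ⊕ Fin t → Vars s t
  | .inl x => .inl (.inl x)
  | .inr w => .inr (.inl w)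

/-- The variables used by the second members. -/
def mB : Fin s ⊕ Fin t → Vars s t
  | .inl x => .inl (.inr x)
  | .inr w => .inr (.inr w)

/-- The coefficient positions. -/
def gA : Fin s ⊕ Fin t → (Fin s ⊕ Fin s) ⊕ Fin t
  | .inl x => .inl (.inl x)
  | .inr w => .inr w

/-- The coefficient positions. -/
def gB : Fin s ⊕ Fin t → (Fin s ⊕ Fin s) ⊕ Fin t
  | .inl x => .inl (.inr x)
  | .inr w => .inr w

lemma lf_indicator (c : ι → J → K) (k : ι) (j₀ : J) (h : ∀ j, c k j = if j = j₀ then 1 else 0) :
    lf c k = X j₀ := by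
  rw [lf, Finset.sum_eq_single j₀]
  · rw [h, if_pos rfl, map_one, one_mul]
  · intro j _ hj
    rw [h, if_neg hj, map_zero, zero_mul]
  · intro h; exact absurd (Finset.mem_univ _) h

lemma exists_pair_eq_one (A B : Finset ι) (hA : A.card = s + t) (hB : B.card = s + t)
    (h : (A ∩ B).card ≤ t) :
    ∃ d : ι → (Fin s ⊕ Fin s) ⊕ Fin t → ZMod 2, pair d A B = 1 := by
  classical
  obtain ⟨g⟩ : Nonempty ({x // x ∈ A ∩ B} ↪ Fin t) := by
    apply Function.Embedding.nonempty_of_card_le
    rwa [Fintype.card_coe, Fintype.card_fin]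
  obtain ⟨eA, heA⟩ := exists_equiv A (A ∩ B) hA g g.injective
  obtain ⟨eB, heB⟩ := exists_equiv B (A ∩ B) hB g g.injective
  let d : ι → (Fin s ⊕ Fin s) ⊕ Fin t → ZMod 2 := fun k j =>
    if (∃ h : k ∈ A, gA (eA ⟨k, h⟩) = j) ∨ (∃ h : k ∈ B, gB (eB ⟨k, h⟩) = j) then 1 else 0
  have hdA : ∀ (k : ι) (hk : k ∈ A) j, d k j = if j = gA (eA ⟨k, hk⟩) then 1 else 0 := by
    intro k hk j
    have : ((∃ h : k ∈ A, gA (eA ⟨k, h⟩) = j) ∨ (∃ h : k ∈ B, gB (eB ⟨k, h⟩) = j)) ↔
        j = gA (eA ⟨k, hk⟩) := by
      constructor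
      · rintro (⟨_, h⟩ | ⟨hkB, h⟩)
        · exact h.symm
        · have hI : k ∈ A ∩ B := Finset.mem_inter.2 ⟨hk, hkB⟩
          rw [heB k hkB hI] at h
          rw [heA k hk hI]
          exact h.symm
      · intro h
        exact Or.inl ⟨hk, h.symm⟩
    show (if _ then _ else _) = _
    simp only [this]
  have hdB : ∀ (k : ι) (hk : k ∈ B) j, d k j = if j = gB (eB ⟨k, hk⟩) then 1 else 0 := by
    intro k hk j
    have : ((∃ h : k ∈ A, gA (eA ⟨k, h⟩) = j) ∨ (∃ h : k ∈ B, gB (eB ⟨k, h⟩) = j)) ↔
        j = gB (eB ⟨k, hk⟩) := by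
      constructor
      · rintro (⟨hkA, h⟩ | ⟨_, h⟩)
        · have hI : k ∈ A ∩ B := Finset.mem_inter.2 ⟨hkA, hk⟩
          rw [heA k hkA hI] at h
          rw [heB k hk hI]
          exact h.symm
        · exact h.symm
      · intro h
        exact Or.inr ⟨hk, h.symm⟩
    show (if _ then _ else _) = _
    simp only [this]
  refine ⟨d, ?_⟩
  have h1 : ∏ k ∈ A, lf (ca d) k = ∏ z : Fin s ⊕ Fin t, (X (mA z) : MvPolynomial (Vars s t) (ZMod 2)) := by
    rw [← Finset.prod_coe_sort A, ← Equiv.prod_comp eA]
    refine Finset.prod_congr rfl fun k _ => ?_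
    apply lf_indicator
    intro j
    rcases j with j | j | j
    · show d k.1 (.inl j) = _
      rw [hdA k.1 k.2]
      rcases h : eA k with z | z
      · simp [gA, mA]
      · simp [gA, mA]
    · show d k.1 (.inr j) = _
      rw [hdA k.1 k.2]
      rcases h : eA k with z | z
      · simp [gA, mA]
      · simp [gA, mA]
    · show (0 : ZMod 2) = _
      rcases h : eA k with z | z
      · simp [mA]
      · simp [mA]
  have h2 : ∏ k ∈ B, lf (cb d) k = ∏ z : Fin s ⊕ Fin t, (X (mB z) : MvPolynomial (Vars s t) (ZMod 2)) := by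
    rw [← Finset.prod_coe_sort B, ← Equiv.prod_comp eB]
    refine Finset.prod_congr rfl fun k _ => ?_
    apply lf_indicator
    intro j
    rcases j with j | j | j
    · show d k.1 (.inl j) = _
      rw [hdB k.1 k.2]
      rcases h : eB k with z | z
      · simp [gB, mB]
      · simp [gB, mB]
    · show (0 : ZMod 2) = _
      rcases h : eB k with z | z
      · simp [mB]
      · simp [mB]
    · show d k.1 (.inr j) = _
      rw [hdB k.1 k.2]
      rcases h : eB k with z | z
      · simp [gB, mB]
      · simp [gB, mB]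
  rw [pair, h1, h2, ← topJ_prod_X (J := Vars s t) (K := ZMod 2)]
  congr 1
  rw [Fintype.prod_sum_type, Fintype.prod_sum_type, Fintype.prod_sum_type (α₁ := Fin s ⊕ Fin s),
    Fintype.prod_sum_type (α₁ := Fin s) (α₂ := Fin s),
    Fintype.prod_sum_type (α₁ := Fin t) (α₂ := Fin t)]
  simp only [mA, mB]
  ring

/-- The exponent vectors seen by the first members. -/
def ex (S : Finset (Fin s ⊕ Fin s)) : Vars s t →₀ ℕ :=
  Finsupp.equivFunOnFinite.symm fun j => match j with
    | .inl x => if x ∈ S then 1 else 0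
    | .inr (.inl _) => 1
    | .inr (.inr _) => 0

/-- The skew set-pair inequality with a threshold. -/
theorem length_le (Z : List (Finset ι × Finset ι))
    (hcard : ∀ p ∈ Z, p.1.card = s + t ∧ p.2.card = s + t)
    (h1 : ∀ p ∈ Z, s ≤ (p.1 \ p.2).card)
    (h2 : Z.Pairwise fun p q => (p.1 \ q.2).card < s) : Z.length ≤ (2 * s).choose s := by
  classical
  let GR := MvPolynomial (ι × ((Fin s ⊕ Fin s) ⊕ Fin t)) (ZMod 2)
  let K := FractionRing GR
  let c₀ : ι → (Fin s ⊕ Fin s) ⊕ Fin t → GR := fun k j => X (k, j)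
  let c : ι → (Fin s ⊕ Fin s) ⊕ Fin t → K := fun k j => algebraMap GR K (c₀ k j)
  haveI : CharP K 2 := by
    have : CharP GR 2 := inferInstance
    exact charP_of_injective_algebraMap (IsFractionRing.injective GR K) 2
  have hsd : ∀ A B : Finset ι, (A \ B).card + (A ∩ B).card = A.card := fun A B =>
    Finset.card_sdiff_add_card_inter A B
  have hne : ∀ p ∈ Z, pair c p.1 p.2 ≠ 0 := by
    intro p hp
    have hI : (p.1 ∩ p.2).card ≤ t := by
      have h3 := hsd p.1 p.2
      have h4 := h1 p hp
      have h5 := (hcard p hp).1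
      omega
    obtain ⟨d, hd⟩ := exists_pair_eq_one p.1 p.2 (hcard p hp).1 (hcard p hp).2 hI
    have h3 : pair c p.1 p.2 = algebraMap GR K (pair c₀ p.1 p.2) := (pair_map _ _ _ _).symm
    rw [h3]
    intro h4
    have h5 := IsFractionRing.injective GR K (h4.trans (map_zero _).symm)
    let ev : GR →+* ZMod 2 := eval₂Hom (RingHom.id (ZMod 2)) fun q => d q.1 q.2
    have h6 := pair_map ev c₀ p.1 p.2
    rw [h5, map_zero] at h6
    have h7 : (fun k j => ev (c₀ k j)) = d := by
      funext k j
      show eval₂Hom (RingHom.id (ZMod 2)) (fun q : ι × ((Fin s ⊕ Fin s) ⊕ Fin t) => d q.1 q.2)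
        (X (k, j)) = d k j
      rw [eval₂Hom_X']
    rw [h7, hd] at h6
    exact zero_ne_one h6
  have hze : ∀ p ∈ Z, ∀ q ∈ Z, (p.1 \ q.2).card < s → pair c p.1 q.2 = 0 := by
    intro p hp q hq h
    apply pair_eq_zero
    have h3 := hsd p.1 q.2
    have h5 := (hcard p hp).1
    omega
  let PA : Fin Z.length → MvPolynomial (Vars s t) K := fun l => ∏ k ∈ (Z.get l).1, lf (ca c) k
  let QB : Fin Z.length → MvPolynomial (Vars s t) K := fun l => ∏ k ∈ (Z.get l).2, lf (cb c) k
  let v : Fin Z.length → ({S : Finset (Fin s ⊕ Fin s) // S.card = s} → K) :=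
    fun l S => coeff (ex S.1) (PA l)
  have hlin : LinearIndependent K v := by
    rw [Fintype.linearIndependent_iff]
    intro g hg
    by_contra hcon
    push Not at hcon
    have hfin : (Finset.univ.filter fun l => g l ≠ 0).Nonempty := by
      obtain ⟨l, hl⟩ := hcon
      exact ⟨l, Finset.mem_filter.2 ⟨Finset.mem_univ _, hl⟩⟩
    set l := (Finset.univ.filter fun l => g l ≠ 0).max' hfin with hl
    have hl0 : g l ≠ 0 := (Finset.mem_filter.1 (Finset.max'_mem _ hfin)).2
    have hmax : ∀ j, l < j → g j = 0 := by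
      intro j hj
      by_contra h
      have hj' : j ∈ Finset.univ.filter (fun l => g l ≠ 0) :=
        Finset.mem_filter.2 ⟨Finset.mem_univ _, h⟩
      have := Finset.le_max' _ j hj'
      exact absurd (lt_of_lt_of_le hj this) (lt_irrefl _)
    let P : MvPolynomial (Vars s t) K := ∑ j, C (g j) * PA j
    have hPc : ∀ a, coeff a P = ∑ j, g j * coeff a (PA j) := by
      intro a
      simp only [P, coeff_sum, coeff_C_mul]
    have h4 : topJ (P * QB l) = 0 := by
      rw [topJ, coeff_mul]
      refine Finset.sum_eq_zero fun ab hab => ?_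
      rw [Finset.HasAntidiagonal.mem_antidiagonal] at hab
      have habj : ∀ j, ab.1 j + ab.2 j = 1 := by
        intro j
        have := DFunLike.congr_fun hab j
        rwa [Finsupp.add_apply, onesJ_apply] at this
      by_cases hb : ∃ w, ab.2 (.inr (.inl w)) ≠ 0
      · obtain ⟨w, hw⟩ := hb
        have : coeff ab.2 (QB l) = 0 := coeff_prod_eq_zero (cb c) _ (fun k => rfl) _ _ hw
        rw [this, mul_zero]
      by_cases ha : ∃ w, ab.1 (.inr (.inr w)) ≠ 0
      · obtain ⟨w, hw⟩ := ha
        have : coeff ab.1 P = 0 := by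
          rw [hPc]
          refine Finset.sum_eq_zero fun j _ => ?_
          have : coeff ab.1 (PA j) = 0 := coeff_prod_eq_zero (ca c) _ (fun k => rfl) _ _ hw
          rw [this, mul_zero]
        rw [this, zero_mul]
      push Not at ha hb
      by_cases hdeg : ab.1.degree = s + t
      · have hexp : ab.1 = ex (Finset.univ.filter fun x => ab.1 (.inl x) = 1) := by
          ext j
          rcases j with x | w | w
          · show _ = if x ∈ _ then 1 else 0
            have := habj (.inl x)
            by_cases hx : ab.1 (.inl x) = 1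
            · have hx' : x ∈ Finset.univ.filter fun x => ab.1 (.inl x) = 1 :=
                Finset.mem_filter.2 ⟨Finset.mem_univ _, hx⟩
              rw [if_pos hx', hx]
            · have hx' : x ∉ Finset.univ.filter fun x => ab.1 (.inl x) = 1 :=
                fun h => hx (Finset.mem_filter.1 h).2
              rw [if_neg hx']
              omega
          · show _ = 1
            have := habj (.inr (.inl w))
            rw [hb w] at this
            exact this
          · show _ = 0
            exact ha w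
        have hSc : (Finset.univ.filter fun x => ab.1 (.inl x) = 1).card = s := by
          have h5 : ab.1.degree = ∑ j, ab.1 j := Finsupp.degree_eq_sum _
          rw [hdeg, Fintype.sum_sum_type, Fintype.sum_sum_type (α₁ := Fin t)] at h5
          have h6 : ∑ w, ab.1 (.inr (.inl w)) = t := by
            have : ∀ w : Fin t, ab.1 (.inr (.inl w)) = 1 := by
              intro w
              have := habj (.inr (.inl w))
              rw [hb w] at this
              exact this
            simp [this]
          have h7 : ∑ w, ab.1 (.inr (.inr w)) = 0 := by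
            simp [ha]
          have h8 : ∑ x, ab.1 (.inl x) =
              (Finset.univ.filter fun x => ab.1 (.inl x) = 1).card := by
            rw [Finset.card_filter]
            refine Finset.sum_congr rfl fun x _ => ?_
            have := habj (.inl x)
            split_ifs with hx <;> omega
          omega
        have h5 := congrFun hg ⟨_, hSc⟩
        rw [Finset.sum_apply] at h5
        have h6 : coeff ab.1 P = 0 := by
          rw [hPc, hexp]
          simpa [v] using h5
        rw [h6, zero_mul]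
      · have : coeff ab.1 P = 0 := by
          rw [hPc]
          refine Finset.sum_eq_zero fun j _ => ?_
          have : coeff ab.1 (PA j) = 0 := coeff_prod_degree (ca c) _ _ (by
            rw [(hcard _ (List.get_mem _ _)).1]; exact hdeg)
          rw [this, mul_zero]
        rw [this, zero_mul]
    have h5 : topJ (P * QB l) = g l * pair c (Z.get l).1 (Z.get l).2 := by
      simp only [P, Finset.sum_mul, topJ, coeff_sum]
      rw [Finset.sum_eq_single l]
      · rw [mul_assoc, coeff_C_mul]
        rfl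
      · intro j _ hj
        rw [mul_assoc, coeff_C_mul]
        rcases lt_or_gt_of_ne hj with h | h
        · have h6 : ((Z.get j).1 \ (Z.get l).2).card < s :=
            List.pairwise_iff_getElem.1 h2 j l j.2 l.2 h
          have h7 : coeff (onesJ (Vars s t)) (PA j * QB l) = 0 :=
            hze _ (List.get_mem _ _) _ (List.get_mem _ _) h6
          rw [h7, mul_zero]
        · rw [hmax j h, zero_mul]
      · intro h; exact absurd (Finset.mem_univ _) h
    rw [h5] at h4
    exact (mul_ne_zero hl0 (hne _ (List.get_mem _ _))) h4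
  have h6 := hlin.fintype_card_le_finrank
  rw [Fintype.card_fin, Module.finrank_fintype_fun_eq_card, Fintype.card_finset_len,
    Fintype.card_sum, Fintype.card_fin, ← two_mul] at h6
  exact h6

/-- The bound for chains of vertices and non-neighbours in a slice. -/
theorem chain_length_le (Z : List (Finset ι × Finset ι))
    (hcard : ∀ p ∈ Z, p.1.card = s + 1 + t ∧ p.2.card = s + 1 + t)
    (h1 : ∀ p ∈ Z, s + 1 ≤ (p.1 \ p.2).card)
    (h2 : Z.Pairwise fun p q => (p.1 \ q.1).card < s + 1 ∧ (p.1 \ q.2).card < s + 1) :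
    2 * Z.length ≤ (2 * (s + 1)).choose (s + 1) := by
  have hcomm : ∀ A B : Finset ι, A.card = B.card → (A \ B).card = (B \ A).card := by
    intro A B h
    have h1 := Finset.card_sdiff_add_card_inter A B
    have h2 := Finset.card_sdiff_add_card_inter B A
    rw [Finset.inter_comm] at h2
    omega
  have hZ := length_le (s := s + 1) (t := t) (Z ++ Z.reverse.map Prod.swap) ?_ ?_ ?_
  · rw [List.length_append, List.length_map, List.length_reverse] at hZ
    omega
  · intro p hp
    rw [List.mem_append, List.mem_map] at hp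
    rcases hp with hp | ⟨q, hq, rfl⟩
    · exact hcard p hp
    · rw [List.mem_reverse] at hq
      exact (hcard q hq).symm
  · intro p hp
    rw [List.mem_append, List.mem_map] at hp
    rcases hp with hp | ⟨q, hq, rfl⟩
    · exact h1 p hp
    · rw [List.mem_reverse] at hq
      rw [Prod.fst_swap, Prod.snd_swap, hcomm _ _ ((hcard q hq).2.trans (hcard q hq).1.symm)]
      exact h1 q hq
  · rw [List.pairwise_append]
    refine ⟨h2.imp fun h => h.2, ?_, ?_⟩
    · rw [List.pairwise_map, List.pairwise_reverse]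
      have h3 : Z.Pairwise fun p q => (p.1 \ q.2).card < s + 1 ∧
          (p.1.card = q.2.card) := by
        rw [List.pairwise_iff_getElem] at h2 ⊢
        intro i j hi hj hij
        refine ⟨(h2 i j hi hj hij).2, ?_⟩
        rw [(hcard _ (List.getElem_mem hi)).1, (hcard _ (List.getElem_mem hj)).2]
      refine h3.imp fun {a b} h => ?_
      rw [Prod.fst_swap, Prod.snd_swap, ← hcomm _ _ h.2]
      exact h.1
    · intro p hp q hq
      rw [List.mem_map] at hq
      obtain ⟨q, hq, rfl⟩ := hq
      rw [List.mem_reverse] at hq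
      rw [Prod.snd_swap]
      obtain ⟨i, hi, rfl⟩ := List.mem_iff_getElem.1 hp
      obtain ⟨j, hj, rfl⟩ := List.mem_iff_getElem.1 hq
      rcases lt_trichotomy i j with h | h | h
      · exact (List.pairwise_iff_getElem.1 h2 i j hi hj h).1
      · subst h; simp
      · rw [hcomm _ _ ((hcard _ (List.getElem_mem hi)).1.trans
          (hcard _ (List.getElem_mem hj)).1.symm)]
        exact (List.pairwise_iff_getElem.1 h2 j i hj hi h).1

end pairs

end

end Q181.Threshold
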